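import Pool.Agent.H94R6.Spec

set_option autoImplicit false
open scoped Topology ENNReal
open Filter

namespace H94N

theorem N1 : S_N1 := by
  intro H ι _ _ _ _ _ a ha T hT i
  -- the operators leaving `N a i` invariant
  let P : Submodule ℂ (H →L[ℂ] H) :=
    { carrier := {T | ∀ f ∈ N a i, T f ∈ N a i}
      add_mem' := by
        intro A B hA hB f hf
        exact (N a i).add_mem (hA f hf) (hB f hf)
      zero_mem' := by
        intro f _
        exact (N a i).zero_mem
      smul_mem' := by
        intro c A hA f hf
        exact (N a i).smul_mem c (hA f hf) }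
  have hNc : IsClosed (N a i : Set H) := Submodule.isClosed_topologicalClosure _
  have hPc : IsClosed (P : Set (H →L[ℂ] H)) := by
    have : (P : Set (H →L[ℂ] H)) = ⋂ f ∈ N a i, {T : H →L[ℂ] H | T f ∈ N a i} := by
      ext T
      simp only [Set.mem_iInter, Set.mem_setOf_eq]
      rfl
    rw [this]
    refine isClosed_biInter fun f _ => ?_
    exact hNc.preimage (ContinuousLinearMap.apply ℂ H f).continuous
  have hSP : SS a ≤ P := by
    refine Submodule.span_le.mpr ?_
    rintro _ ⟨p, q, r, hpq, hqr, rfl⟩ f hf
    have hval : R a p q r f = (inner ℂ (a r - a q) f) • a p := rfl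
    rw [hval]
    rcases le_or_gt i q with hiq | hqi
    · have h0 : inner ℂ (a r - a q) f = 0 := by
        have hle : N a i ≤ LinearMap.ker ((innerSL ℂ (a r - a q)) : H →L[ℂ] ℂ).toLinearMap := by
          refine Submodule.topologicalClosure_minimal _ ?_ ?_
          · refine Submodule.span_le.mpr ?_
            rintro _ ⟨j, hj, rfl⟩
            have hj' : j ≤ i := hj
            change inner ℂ (a r - a q) (a j) = 0
            rw [inner_sub_left, ← inner_conj_symm (a r), ← inner_conj_symm (a q),
              ha.orth j r (hj'.trans (hiq.trans hqr)), ha.orth j q (hj'.trans hiq), sub_self]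
          · exact ContinuousLinearMap.isClosed_ker _
        exact hle hf
      rw [h0, zero_smul]
      exact (N a i).zero_mem
    · refine (N a i).smul_mem _ ?_
      exact Submodule.le_topologicalClosure _ (Submodule.subset_span ⟨p, (hpq.trans_lt hqi).le, rfl⟩)
  exact Submodule.topologicalClosure_minimal _ hSP hPc hT

end H94N
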