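import Pool.Agent.H94R6.Spec

set_option autoImplicit false

noncomputable section
namespace H94N

section
variable {H ι : Type} [NormedAddCommGroup H] [InnerProductSpace ℂ H] [CompleteSpace H]
  [LinearOrder ι] [OrderBot ι]

theorem N2_orth {a : ι → H} (ha : Chain a) {p q r s : ι} (h1 : p ≤ q) (h2 : q ≤ r) (h3 : r ≤ s) :
    inner ℂ (a q - a p) (a s - a r) = 0 := by
  rw [inner_sub_left, inner_sub_right, inner_sub_right, ha.orth q s (h2.trans h3),
    ha.orth q r h2, ha.orth p s (h1.trans (h2.trans h3)), ha.orth p r (h1.trans h2)]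
  ring

theorem N2_orth' {a : ι → H} (ha : Chain a) {p q r s : ι} (h1 : p ≤ q) (h2 : q ≤ r) (h3 : r ≤ s) :
    inner ℂ (a s - a r) (a q - a p) = 0 := by
  rw [← inner_conj_symm, N2_orth ha h1 h2 h3, map_zero]

theorem N2_finite {a : ι → H} {T : H →L[ℂ] H} (hT : T ∈ SS a) :
    ∃ s : Finset ι, T ∈ Submodule.span ℂ
      {T | ∃ p q r, p ∈ s ∧ q ∈ s ∧ r ∈ s ∧ p ≤ q ∧ q ≤ r ∧ T = R a p q r} := by
  classical
  unfold SS at hT
  induction hT using Submodule.span_induction with
  | mem x hx =>
    obtain ⟨p, q, r, hpq, hqr, rfl⟩ := hx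
    refine ⟨{p, q, r}, Submodule.subset_span ⟨p, q, r, ?_, ?_, ?_, hpq, hqr, rfl⟩⟩ <;> simp
  | zero => exact ⟨∅, Submodule.zero_mem _⟩
  | add x y _ _ hx hy =>
    obtain ⟨s, hs⟩ := hx
    obtain ⟨t, ht⟩ := hy
    refine ⟨s ∪ t, Submodule.add_mem _ (Submodule.span_mono ?_ hs) (Submodule.span_mono ?_ ht)⟩
    · rintro _ ⟨p, q, r, hp, hq, hr, h⟩
      exact ⟨p, q, r, Finset.mem_union_left _ hp, Finset.mem_union_left _ hq,
        Finset.mem_union_left _ hr, h⟩
    · rintro _ ⟨p, q, r, hp, hq, hr, h⟩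
      exact ⟨p, q, r, Finset.mem_union_right _ hp, Finset.mem_union_right _ hq,
        Finset.mem_union_right _ hr, h⟩
  | smul c x _ hx =>
    obtain ⟨s, hs⟩ := hx
    exact ⟨s, Submodule.smul_mem _ c hs⟩

end

theorem N2 : S_N2 := by
  classical
  unfold S_N2
  intro H ι _ _ _ _ _ a ha T hT i l hil
  obtain ⟨s0, hs0⟩ := N2_finite hT
  set s : Finset ι := insert ⊥ (insert i (insert l s0)) with hs
  have hbot : (⊥ : ι) ∈ s := by simp [hs]
  have hi : i ∈ s := by simp [hs]
  have hl : l ∈ s := by simp [hs]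
  have hsub : ∀ p ∈ s0, p ∈ s := by
    intro p hp
    simp [hs, hp]
  have hcard : 0 < s.card := Finset.card_pos.mpr ⟨⊥, hbot⟩
  let e : Fin s.card ↪o ι := s.orderEmbOfFin rfl
  let k : ℕ → ι := fun j => if h : j < s.card then e ⟨j, h⟩ else ⊥
  have hk : ∀ j (h : j < s.card), k j = e ⟨j, h⟩ := fun j h => by simp only [k, dif_pos h]
  obtain ⟨n, hn⟩ : ∃ n, s.card = n + 1 := ⟨s.card - 1, by omega⟩
  have hmono : ∀ x y, x < y → y ≤ n → k x < k y := by
    intro x y hxy hy
    rw [hk x (by omega), hk y (by omega)]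
    exact e.strictMono (by simpa using hxy)
  have hmono' : ∀ x y, x ≤ y → y ≤ n → k x ≤ k y := by
    intro x y hxy hy
    rcases hxy.lt_or_eq with h | h
    · exact (hmono x y h hy).le
    · rw [h]
  have hrange : ∀ p ∈ s, ∃ x, x ≤ n ∧ k x = p := by
    intro p hp
    have : p ∈ Set.range e := by
      have := Finset.range_orderEmbOfFin s (rfl : s.card = s.card)
      rw [show Set.range e = (s : Set ι) from this]
      exact hp
    obtain ⟨x, hx⟩ := this
    refine ⟨x.1, by have := x.2; omega, ?_⟩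
    rw [hk x.1 x.2]
    exact hx
  have hk0 : k 0 = ⊥ := by
    obtain ⟨x, hx, hx'⟩ := hrange ⊥ hbot
    have := hmono' 0 x (Nat.zero_le _) hx
    rw [hx'] at this
    exact le_bot_iff.mp this
  have htel : ∀ x, a (k x) = ∑ j ∈ Finset.range x, (a (k (j + 1)) - a (k j)) := by
    intro x
    rw [Finset.sum_range_sub (fun j => a (k j)), hk0, ha.bot, sub_zero]
  refine ⟨n, k, hmono, hk0, hrange i hi, hrange l hl, ?_⟩
  -- the property is closed under linear combinations
  have key : (∀ j, j < n → T (a (k (j + 1)) - a (k j)) ∈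
      Submodule.span ℂ {v | ∃ x, x < j ∧ v = a (k (x + 1)) - a (k x)}) ∧
    (∀ f, (∀ j, j < n → inner ℂ (a (k (j + 1)) - a (k j)) f = 0) → T f = 0) := by
    clear hT
    induction hs0 using Submodule.span_induction with
    | mem x hx =>
      obtain ⟨p, q, r, hp, hq, hr, hpq, hqr, rfl⟩ := hx
      obtain ⟨α, hα, rfl⟩ := hrange p (hsub p hp)
      obtain ⟨β, hβ, rfl⟩ := hrange q (hsub q hq)
      obtain ⟨γ, hγ, rfl⟩ := hrange r (hsub r hr)
      have hαβ : α ≤ β := by
        by_contra h
        exact absurd (hmono β α (by omega) hα) (not_lt.mpr hpq)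
      have hβγ : β ≤ γ := by
        by_contra h
        exact absurd (hmono γ β (by omega) hβ) (not_lt.mpr hqr)
      constructor
      · intro j hj
        simp only [R, ContinuousLinearMap.smulRight_apply, innerSL_apply_apply]
        rcases lt_or_ge j β with h | h
        · rw [N2_orth' ha (hmono' j (j + 1) (by omega) (by omega))
            (hmono' (j + 1) β (by omega) hβ) (hmono' β γ hβγ hγ), zero_smul]
          exact Submodule.zero_mem _
        · refine Submodule.smul_mem _ _ ?_
          rw [htel α]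
          refine Submodule.sum_mem _ fun x hx => Submodule.subset_span ⟨x, ?_, rfl⟩
          have := Finset.mem_range.mp hx
          omega
      · intro f hf
        have h0 : ∀ x, x ≤ n → inner ℂ (a (k x)) f = 0 := by
          intro x hx
          rw [htel x, sum_inner]
          refine Finset.sum_eq_zero fun j hj => hf j ?_
          have := Finset.mem_range.mp hj
          omega
        simp only [R, ContinuousLinearMap.smulRight_apply, innerSL_apply_apply]
        rw [inner_sub_left, h0 γ hγ, h0 β hβ, sub_zero, zero_smul]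
    | zero =>
      refine ⟨fun j _ => by simp, fun f _ => by simp⟩
    | add x y _ _ hx hy =>
      refine ⟨fun j hj => ?_, fun f hf => ?_⟩
      · rw [ContinuousLinearMap.add_apply]
        exact Submodule.add_mem _ (hx.1 j hj) (hy.1 j hj)
      · rw [ContinuousLinearMap.add_apply, hx.2 f hf, hy.2 f hf, add_zero]
    | smul c x _ hx =>
      refine ⟨fun j hj => ?_, fun f hf => ?_⟩
      · rw [ContinuousLinearMap.smul_apply]
        exact Submodule.smul_mem _ c (hx.1 j hj)
      · rw [ContinuousLinearMap.smul_apply, hx.2 f hf, smul_zero]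
  exact key

end H94N
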