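import Pool.Agent.H94R6.Spec

/-!
Project NE (helper94), task N3: one Jordan block after a small perturbation (helper784).
-/

set_option autoImplicit false
open scoped Topology ENNReal
open Filter

noncomputable section
namespace H94N

section N3aux

variable {H : Type} [NormedAddCommGroup H] [InnerProductSpace ℂ H]

/-- span of the first `m` vectors -/
def N3_V (v : ℕ → H) (m : ℕ) : Submodule ℂ H := Submodule.span ℂ {u | ∃ x, x < m ∧ u = v x}

theorem N3_mem (v : ℕ → H) {x m : ℕ} (h : x < m) : v x ∈ N3_V v m :=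
  Submodule.subset_span ⟨x, h, rfl⟩

theorem N3_mono (v : ℕ → H) {m m' : ℕ} (h : m ≤ m') : N3_V v m ≤ N3_V v m' := by
  apply Submodule.span_mono
  rintro u ⟨x, hx, rfl⟩
  exact ⟨x, by omega, rfl⟩

theorem N3_orb1 (T : H →L[ℂ] H) (f : H) : T f ∈ orb T f :=
  Submodule.subset_span ⟨1, le_rfl, by rw [pow_one]⟩

theorem N3_orb_le (T : H →L[ℂ] H) (f : H) : orb T (T f) ≤ orb T f := by
  apply Submodule.span_le.2
  rintro y ⟨j, hj, rfl⟩
  refine Submodule.subset_span ⟨j + 1, by omega, ?_⟩
  rw [pow_succ]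
  rfl

theorem N3_orb_congr (T : H →L[ℂ] H) (f g : H) (h : T f = T g) : orb T f = orb T g := by
  have key : ∀ j : ℕ, 1 ≤ j → (T ^ j) f = (T ^ j) g := by
    intro j hj
    obtain ⟨k, rfl⟩ : ∃ k, j = k + 1 := ⟨j - 1, by omega⟩
    rw [pow_succ]
    show (T ^ k) (T f) = (T ^ k) (T g)
    rw [h]
  unfold orb
  congr 1
  ext y
  constructor
  · rintro ⟨j, hj, rfl⟩
    exact ⟨j, hj, key j hj⟩
  · rintro ⟨j, hj, rfl⟩
    exact ⟨j, hj, (key j hj).symm⟩

/-- the algebraic core -/
theorem N3_alg (n : ℕ) (v : ℕ → H) (T : H →L[ℂ] H) (h0 : T (v 0) = 0)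
    (hd : ∀ k, k + 1 < n → ∃ d : ℂ, d ≠ 0 ∧ T (v (k + 1)) - d • v k ∈ N3_V v k) :
    ∀ m, m < n → ∀ (h : H) (c : ℂ), c ≠ 0 → h - c • v m ∈ N3_V v m →
      ∀ j, j < m → v j ∈ orb T h := by
  intro m
  induction m with
  | zero => intro _ h c _ _ j hj; omega
  | succ m ih =>
    intro hm h c hc hh j hj
    obtain ⟨d, hd0, hdm⟩ := hd m hm
    -- `T` maps `V (m+1)` to `V m`
    have hT : ∀ w ∈ N3_V v (m + 1), T w ∈ N3_V v m := by
      intro w hw
      unfold N3_V at hw
      induction hw using Submodule.span_induction with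
      | mem x hx =>
        obtain ⟨y, hy, rfl⟩ := hx
        rcases Nat.eq_zero_or_pos y with rfl | hy0
        · rw [h0]; exact Submodule.zero_mem _
        · obtain ⟨z, rfl⟩ : ∃ z, y = z + 1 := ⟨y - 1, by omega⟩
          obtain ⟨d', _, hd'⟩ := hd z (by omega)
          have h1 : T (v (z + 1)) = (T (v (z + 1)) - d' • v z) + d' • v z := by abel
          rw [h1]
          exact Submodule.add_mem _ (N3_mono v (by omega) hd')
            (Submodule.smul_mem _ _ (N3_mem v (by omega)))
      | zero => rw [map_zero]; exact Submodule.zero_mem _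
      | add x y _ _ hx hy => rw [map_add]; exact Submodule.add_mem _ hx hy
      | smul a x _ hx => rw [map_smul]; exact Submodule.smul_mem _ _ hx
    have hTh : T h - (c * d) • v m ∈ N3_V v m := by
      have h1 : T h - (c * d) • v m = T (h - c • v (m + 1)) + c • (T (v (m + 1)) - d • v m) := by
        rw [map_sub, map_smul, smul_sub, smul_smul]
        abel
      rw [h1]
      exact Submodule.add_mem _ (hT _ hh) (Submodule.smul_mem _ _ hdm)
    have hih : ∀ j, j < m → v j ∈ orb T h := fun j hj =>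
      N3_orb_le T h (ih (by omega) (T h) (c * d) (mul_ne_zero hc hd0) hTh j hj)
    rcases Nat.lt_succ_iff_lt_or_eq.1 hj with hj | rfl
    · exact hih j hj
    · have hV : N3_V v j ≤ orb T h := by
        apply Submodule.span_le.2
        rintro u ⟨x, hx, rfl⟩
        exact hih x hx
      have h1 : (c * d) • v j = T h - (T h - (c * d) • v j) := by abel
      have h2 : (c * d) • v j ∈ orb T h := by
        rw [h1]
        exact Submodule.sub_mem _ (N3_orb1 T h) (hV hTh)
      have h3 := Submodule.smul_mem _ (c * d)⁻¹ h2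
      rwa [smul_smul, inv_mul_cancel₀ (mul_ne_zero hc hd0), one_smul] at h3

/-- coefficient of the top vector -/
theorem N3_top (v : ℕ → H) (k : ℕ) (ho : ∀ x, x < k → inner ℂ (v k) (v x) = 0) :
    ∀ w ∈ N3_V v (k + 1), ∃ t : ℂ, w - t • v k ∈ N3_V v k ∧
      inner ℂ (v k) w = t * inner ℂ (v k) (v k) := by
  have hz : ∀ w ∈ N3_V v k, inner ℂ (v k) w = 0 := by
    intro w hw
    unfold N3_V at hw
    induction hw using Submodule.span_induction with
    | mem x hx => obtain ⟨y, hy, rfl⟩ := hx; exact ho y hy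
    | zero => exact inner_zero_right _
    | add x y _ _ hx hy => rw [inner_add_right, hx, hy, add_zero]
    | smul a x _ hx => rw [inner_smul_right, hx, mul_zero]
  have h1 : ∀ w ∈ N3_V v (k + 1), ∃ t : ℂ, w - t • v k ∈ N3_V v k := by
    intro w hw
    unfold N3_V at hw
    induction hw using Submodule.span_induction with
    | mem x hx =>
      obtain ⟨y, hy, rfl⟩ := hx
      rcases Nat.lt_succ_iff_lt_or_eq.1 hy with hy | rfl
      · exact ⟨0, by rw [zero_smul, sub_zero]; exact N3_mem v hy⟩
      · exact ⟨1, by rw [one_smul, sub_self]; exact Submodule.zero_mem _⟩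
    | zero => exact ⟨0, by rw [zero_smul, sub_zero]; exact Submodule.zero_mem _⟩
    | add x y _ _ hx hy =>
      obtain ⟨s, hs⟩ := hx
      obtain ⟨t, ht⟩ := hy
      refine ⟨s + t, ?_⟩
      have : x + y - (s + t) • v k = (x - s • v k) + (y - t • v k) := by
        rw [add_smul]; abel
      rw [this]
      exact Submodule.add_mem _ hs ht
    | smul a x _ hx =>
      obtain ⟨s, hs⟩ := hx
      refine ⟨a * s, ?_⟩
      have : a • x - (a * s) • v k = a • (x - s • v k) := by
        rw [smul_sub, smul_smul]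
      rw [this]
      exact Submodule.smul_mem _ _ hs
  intro w hw
  obtain ⟨t, ht⟩ := h1 w hw
  refine ⟨t, ht, ?_⟩
  have h2 := hz _ ht
  rw [inner_sub_right, inner_smul_right, sub_eq_zero] at h2
  exact h2

end N3aux

theorem N3 : S_N3 := by
  unfold S_N3
  intro H _ _ _ n v T hv0 horth hT hker ε hε
  obtain ⟨E, hE⟩ : ∃ E : H →L[ℂ] H,
    E = ∑ j ∈ Finset.range (n - 1), (innerSL ℂ (v (j + 1))).smulRight (v j) := ⟨_, rfl⟩
  have hEz : ∀ z, E z = ∑ j ∈ Finset.range (n - 1), inner ℂ (v (j + 1)) z • v j := by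
    intro z
    rw [hE]
    simp
  have horth' : ∀ i j, i < n → j < n → i ≠ j → inner ℂ (v i) (v j) = 0 := by
    intro i j hi hj hij
    rcases lt_or_gt_of_ne hij with h | h
    · exact horth i j h hj
    · exact inner_eq_zero_symm.1 (horth j i h hi)
  -- choice of `η`
  obtain ⟨η, hη1, hη2⟩ : ∃ η : ℂ, ‖η‖ < ε / (‖E‖ + 1) ∧
      ∀ k, k + 1 < n → inner ℂ (v k) (T (v (k + 1))) +
        η * (inner ℂ (v (k + 1)) (v (k + 1)) * inner ℂ (v k) (v k)) ≠ 0 := by
    have hδ : 0 < ε / (‖E‖ + 1) := by positivity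
    have hinf : (Metric.ball (0 : ℂ) (ε / (‖E‖ + 1))).Infinite :=
      infinite_of_mem_nhds (0 : ℂ) (Metric.ball_mem_nhds 0 hδ)
    obtain ⟨η, hη, hη'⟩ := hinf.exists_notMem_finset
      ((Finset.range (n - 1)).image (fun k => -(inner ℂ (v k) (T (v (k + 1)))) /
        (inner ℂ (v (k + 1)) (v (k + 1)) * inner ℂ (v k) (v k))))
    refine ⟨η, by simpa using hη, ?_⟩
    intro k hk hcon
    apply hη'
    rw [Finset.mem_image]
    refine ⟨k, Finset.mem_range.2 (by omega), ?_⟩
    have h1 : (inner ℂ (v (k + 1)) (v (k + 1)) : ℂ) ≠ 0 := inner_self_ne_zero.2 (hv0 _ hk)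
    have h2 : (inner ℂ (v k) (v k) : ℂ) ≠ 0 := inner_self_ne_zero.2 (hv0 _ (by omega))
    rw [div_eq_iff (mul_ne_zero h1 h2)]
    linear_combination -hcon
  refine ⟨η, T + η • E, by rw [hE], ?_, ?_⟩
  · rw [add_sub_cancel_left, norm_smul]
    rw [lt_div_iff₀ (by positivity)] at hη1
    have := norm_nonneg η
    nlinarith
  · obtain ⟨T', hT'⟩ : ∃ T' : H →L[ℂ] H, T' = T + η • E := ⟨_, rfl⟩
    rw [← hT']
    have hT'z : ∀ z, T' z = T z + η • E z := by intro z; rw [hT']; rfl
    -- values of `E`
    have hE0 : 0 < n → E (v 0) = 0 := by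
      intro hn
      rw [hEz]
      refine Finset.sum_eq_zero (fun j hj => ?_)
      rw [Finset.mem_range] at hj
      rw [horth' (j + 1) 0 (by omega) hn (by omega), zero_smul]
    have hEk : ∀ k, k + 1 < n → E (v (k + 1)) = (inner ℂ (v (k + 1)) (v (k + 1)) : ℂ) • v k := by
      intro k hk
      rw [hEz, Finset.sum_eq_single k]
      · intro j hj hjk
        rw [Finset.mem_range] at hj
        rw [horth' (j + 1) (k + 1) (by omega) hk (by omega), zero_smul]
      · intro h
        exact absurd (Finset.mem_range.2 (by omega)) h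
    intro f m hm hfm
    have hn : 0 < n := by omega
    have hT'0 : T' (v 0) = 0 := by
      rw [hT'z, hE0 hn, smul_zero, add_zero]
      have := hT 0 hn
      have hemp : {u : H | ∃ x, x < 0 ∧ u = v x} = ∅ := by
        ext u; simp
      rw [hemp, Submodule.span_empty, Submodule.mem_bot] at this
      exact this
    have hd : ∀ k, k + 1 < n → ∃ d : ℂ, d ≠ 0 ∧ T' (v (k + 1)) - d • v k ∈ N3_V v k := by
      intro k hk
      obtain ⟨t, ht1, ht2⟩ := N3_top v k
        (fun x hx => horth' k x (by omega) (by omega) (by omega)) _ (hT (k + 1) hk)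
      refine ⟨t + η * inner ℂ (v (k + 1)) (v (k + 1)), ?_, ?_⟩
      · intro hcon
        apply hη2 k hk
        rw [ht2]
        linear_combination (inner ℂ (v k) (v k) : ℂ) * hcon
      · have : T' (v (k + 1)) - (t + η * inner ℂ (v (k + 1)) (v (k + 1))) • v k =
            T (v (k + 1)) - t • v k := by
          rw [hT'z, hEk k hk, add_smul, smul_smul]
          abel
        rw [this]
        exact ht1
    -- the projection of `f`
    obtain ⟨c, hc⟩ : ∃ c : ℕ → ℂ, c = fun x => inner ℂ (v x) f / inner ℂ (v x) (v x) := ⟨_, rfl⟩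
    obtain ⟨g, hg⟩ : ∃ g : H, g = ∑ x ∈ Finset.range n, c x • v x := ⟨_, rfl⟩
    have hperp : ∀ j, j < n → inner ℂ (v j) (f - g) = 0 := by
      intro j hj
      rw [inner_sub_right, hg, inner_sum, Finset.sum_eq_single j]
      · rw [inner_smul_right, hc]
        have : (inner ℂ (v j) (v j) : ℂ) ≠ 0 := inner_self_ne_zero.2 (hv0 _ hj)
        simp only
        rw [div_mul_cancel₀ _ this, sub_self]
      · intro x hx hxj
        rw [Finset.mem_range] at hx
        rw [inner_smul_right, horth' j x hj hx (Ne.symm hxj), mul_zero]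
      · intro h
        exact absurd (Finset.mem_range.2 hj) h
    have hTfg : T' f = T' g := by
      rw [← sub_eq_zero, ← map_sub, hT'z, hker _ hperp, zero_add, hEz]
      rw [Finset.sum_eq_zero, smul_zero]
      intro j hj
      rw [Finset.mem_range] at hj
      rw [hperp (j + 1) (by omega), zero_smul]
    -- the top index
    obtain ⟨M, hM, hMmax⟩ : ∃ M, (M < n ∧ inner ℂ (v M) f ≠ 0) ∧
        ∀ x, x < n → inner ℂ (v x) f ≠ 0 → x ≤ M := by
      classical
      have hfin : ((Finset.range n).filter (fun x => inner ℂ (v x) f ≠ 0)).Nonempty :=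
        ⟨m, Finset.mem_filter.2 ⟨Finset.mem_range.2 hm, hfm⟩⟩
      refine ⟨((Finset.range n).filter (fun x => inner ℂ (v x) f ≠ 0)).max' hfin, ?_, ?_⟩
      · have := Finset.max'_mem _ hfin
        rw [Finset.mem_filter, Finset.mem_range] at this
        exact this
      · intro x hx hx'
        exact Finset.le_max' _ _ (Finset.mem_filter.2 ⟨Finset.mem_range.2 hx, hx'⟩)
    have hmM : m ≤ M := hMmax m hm hfm
    have hcM : c M ≠ 0 := by
      rw [hc]
      exact div_ne_zero hM.2 (inner_self_ne_zero.2 (hv0 _ hM.1))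
    have hcz : ∀ x, x < n → M < x → c x = 0 := by
      intro x hx hMx
      have : inner ℂ (v x) f = 0 := by
        by_contra h
        have := hMmax x hx h
        omega
      rw [hc]
      simp only
      rw [this, zero_div]
    have hgM : g - c M • v M ∈ N3_V v M := by
      have h1 : g = ∑ x ∈ Finset.range (M + 1), c x • v x := by
        rw [hg]
        symm
        apply Finset.sum_subset
        · intro x hx
          rw [Finset.mem_range] at hx ⊢
          omega
        · intro x hx hx'
          rw [Finset.mem_range] at hx hx'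
          rw [hcz x hx (by omega), zero_smul]
      rw [h1, Finset.sum_range_succ, add_sub_cancel_right]
      apply Submodule.sum_mem
      intro x hx
      exact Submodule.smul_mem _ _ (N3_mem v (Finset.mem_range.1 hx))
    intro j hj
    rw [N3_orb_congr T' f g hTfg]
    exact N3_alg n v T' hT'0 hd M hM.1 g (c M) hcM hgM j (by omega)

end H94N
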