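import Pool.Agent.H94R6.Spec

/-! N4: good perturbations are dense (helper501). -/

set_option autoImplicit false
open scoped Topology ENNReal
open Filter

noncomputable section
namespace H94N

theorem N4 (h2 : S_N2) (h3 : S_N3) : S_N4 := by
  intro H ι _ _ _ _ _ a ha T hT i l hil ε hε
  obtain ⟨n, k, hmono, hk0, ⟨x, hxn, hkx⟩, ⟨y, hyn, hky⟩, hT1, hT2⟩ := h2 H ι a ha T hT i l hil
  -- the increments
  set v : ℕ → H := fun j => a (k (j + 1)) - a (k j) with hv
  have hne : ∀ j, j < n → v j ≠ 0 := by
    intro j hj h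
    have h4 : a (k (j + 1)) = a (k j) := sub_eq_zero.1 h
    have h5 := hmono j (j + 1) (Nat.lt_succ_self j) hj
    exact h5.ne (ha.inj h4).symm
  have hle : ∀ p q, p ≤ q → q ≤ n → k p ≤ k q := by
    intro p q hpq hq
    rcases hpq.eq_or_lt with h | h
    · rw [h]
    · exact (hmono p q h hq).le
  have horth : ∀ i j, i < j → j < n → inner ℂ (v i) (v j) = 0 := by
    intro i j hij hj
    show inner ℂ (a (k (i + 1)) - a (k i)) (a (k (j + 1)) - a (k j)) = 0
    rw [inner_sub_left, inner_sub_right, inner_sub_right,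
      ha.orth _ _ (hle (i + 1) (j + 1) (by omega) (by omega)),
      ha.orth _ _ (hle (i + 1) j (by omega) (by omega)),
      ha.orth _ _ (hle i (j + 1) (by omega) (by omega)),
      ha.orth _ _ (hle i j (by omega) (by omega))]
    ring
  obtain ⟨η, T', hT', hTε, hgood⟩ := h3 H n v T hne horth hT1 hT2 ε hε
  refine ⟨T', ?_, hTε, ?_⟩
  · rw [hT']
    refine Submodule.add_mem _ hT (Submodule.smul_mem _ _ (Submodule.sum_mem _ ?_))
    intro j hj
    have hj' : j + 2 ≤ n := by
      have := Finset.mem_range.1 hj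
      omega
    have h4 : (innerSL ℂ (v (j + 1))).smulRight (v j) =
        R a (k (j + 1)) (k (j + 1)) (k (j + 2)) - R a (k j) (k (j + 1)) (k (j + 2)) := by
      ext z
      show inner ℂ (v (j + 1)) z • v j =
        inner ℂ (a (k (j + 2)) - a (k (j + 1))) z • a (k (j + 1)) -
          inner ℂ (a (k (j + 2)) - a (k (j + 1))) z • a (k j)
      rw [← smul_sub]
    rw [h4]
    refine Submodule.sub_mem _ (Submodule.subset_span ⟨_, _, _, le_rfl, ?_, rfl⟩)
      (Submodule.subset_span ⟨_, _, _, ?_, ?_, rfl⟩)
    · exact hle _ _ (by omega) hj'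
    · exact hle _ _ (by omega) (by omega)
    · exact hle _ _ (by omega) hj'
  · intro f hf
    have hxy : x ≤ y := by
      by_contra h
      push Not at h
      have h4 := hmono y x h hxn
      rw [hkx, hky] at h4
      exact absurd hil (not_le.2 h4)
    have htel : ∀ z, ∑ j ∈ Finset.range z, v j = a (k z) - a (k 0) := by
      intro z
      exact Finset.sum_range_sub (fun j => a (k j)) z
    have h4 : a l - a i = ∑ j ∈ Finset.Ico x y, v j := by
      rw [Finset.sum_Ico_eq_sub _ hxy, htel, htel, hkx, hky]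
      abel
    have h5 : ∃ m ∈ Finset.Ico x y, inner ℂ (v m) f ≠ 0 := by
      by_contra h
      push Not at h
      apply hf
      rw [h4, sum_inner]
      exact Finset.sum_eq_zero h
    obtain ⟨m, hm, hmf⟩ := h5
    rw [Finset.mem_Ico] at hm
    have h6 := hgood f m (by omega) hmf
    have h7 : a i = ∑ j ∈ Finset.range x, v j := by
      rw [htel, hk0, ha.bot, sub_zero, hkx]
    rw [h7]
    exact Submodule.sum_mem _ fun j hj => h6 j (by
      have := Finset.mem_range.1 hj
      omega)

end H94N
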