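import Pool.Agent.H94R6.Spec

/-! N5: stability by finite dimensional compactness. -/

set_option autoImplicit false
open scoped Topology ENNReal
open Filter

noncomputable section
namespace H94N

namespace N5aux

variable {H ι : Type} [NormedAddCommGroup H] [InnerProductSpace ℂ H] [CompleteSpace H]
  [LinearOrder ι] [OrderBot ι]

/-- operators in `SS a` factor through a finite dimensional space -/
theorem exists_fin (a : ι → H) (T : H →L[ℂ] H) (hT : T ∈ SS a) :
    ∃ K : Submodule ℂ H, FiniteDimensional ℂ K ∧ ∀ f ∈ Kᗮ, T f = 0 := by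
  unfold SS at hT
  induction hT using Submodule.span_induction with
  | mem T hT =>
    obtain ⟨p, q, r, -, -, rfl⟩ := hT
    refine ⟨Submodule.span ℂ {a r - a q}, inferInstance, fun f hf => ?_⟩
    have h1 : inner ℂ (a r - a q) f = 0 := hf _ (Submodule.mem_span_singleton_self _)
    show (inner ℂ (a r - a q) f) • a p = 0
    rw [h1, zero_smul]
  | zero => exact ⟨⊥, inferInstance, fun f _ => rfl⟩
  | add x y _ _ hx hy =>
    obtain ⟨K1, h1, h1'⟩ := hx
    obtain ⟨K2, h2, h2'⟩ := hy
    refine ⟨K1 ⊔ K2, inferInstance, fun f hf => ?_⟩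
    have e1 := h1' f (Submodule.orthogonal_le le_sup_left hf)
    have e2 := h2' f (Submodule.orthogonal_le le_sup_right hf)
    show x f + y f = 0
    rw [e1, e2, add_zero]
  | smul c x _ hx =>
    obtain ⟨K1, h1, h1'⟩ := hx
    refine ⟨K1, h1, fun f hf => ?_⟩
    show c • x f = 0
    rw [h1' f hf, smul_zero]

/-- polynomials without constant term -/
theorem aeval_mem_orb (T : H →L[ℂ] H) (f : H) (p : Polynomial ℂ) :
    (Polynomial.aeval T (Polynomial.X * p)) f ∈ orb T f := by
  induction p using Polynomial.induction_on' with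
  | add p q hp hq =>
    rw [mul_add, map_add]
    exact (orb T f).add_mem hp hq
  | monomial n c =>
    have e1 : (Polynomial.aeval T (Polynomial.X * Polynomial.monomial n c)) f =
        c • (T ^ (n + 1)) f := by
      rw [Polynomial.X_mul_monomial, Polynomial.aeval_monomial, Algebra.algebraMap_eq_smul_one,
        smul_mul_assoc, one_mul]
      rfl
    rw [e1]
    exact (orb T f).smul_mem _ (Submodule.subset_span ⟨n + 1, by omega, rfl⟩)

theorem exists_aeval (T : H →L[ℂ] H) (f y : H) (hy : y ∈ orb T f) :
    ∃ p : Polynomial ℂ, (Polynomial.aeval T (Polynomial.X * p)) f = y := by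
  unfold orb at hy
  induction hy using Submodule.span_induction with
  | mem y hy =>
    obtain ⟨j, hj, rfl⟩ := hy
    refine ⟨Polynomial.X ^ (j - 1), ?_⟩
    rw [← pow_succ', map_pow, Polynomial.aeval_X, Nat.sub_add_cancel hj]
  | zero => exact ⟨0, by simp⟩
  | add x y _ _ hx hy =>
    obtain ⟨p, rfl⟩ := hx
    obtain ⟨q, rfl⟩ := hy
    refine ⟨p + q, ?_⟩
    rw [mul_add, map_add]
    rfl
  | smul c x _ hx =>
    obtain ⟨p, rfl⟩ := hx
    refine ⟨c • p, ?_⟩
    rw [mul_smul_comm, map_smul]
    rfl

end N5aux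

open N5aux in
theorem N5 : S_N5 := by
  unfold S_N5
  intro H ι _ _ _ _ _ a _ T hT i l hG δ ε hδ hε
  obtain ⟨K, hK, hKT⟩ := exists_fin a T hT
  -- enlarge `K` so that it contains `a l - a i`
  set Kf : Submodule ℂ H := K ⊔ Submodule.span ℂ {a l - a i} with hKf
  have hfd : FiniteDimensional ℂ Kf := by rw [hKf]; infer_instance
  have hKT' : ∀ f ∈ Kfᗮ, T f = 0 := fun f hf =>
    hKT f (Submodule.orthogonal_le le_sup_left hf)
  have hmem : a l - a i ∈ Kf :=
    (le_sup_right : _ ≤ Kf) (Submodule.mem_span_singleton_self _)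
  have hproper : ProperSpace Kf := FiniteDimensional.proper ℂ Kf
  set C : Set Kf := {g | ‖g‖ ≤ 1 ∧ δ ≤ ‖inner ℂ (a l - a i) (g : H)‖} with hC
  have hCc : IsCompact C := by
    apply Metric.isCompact_of_isClosed_isBounded
    · apply IsClosed.inter
      · exact isClosed_le continuous_norm continuous_const
      · have hc : Continuous fun g : Kf => ‖inner ℂ (a l - a i) (g : H)‖ :=
          (Continuous.inner continuous_const continuous_subtype_val).norm
        exact isClosed_le continuous_const hc
    · refine (Metric.isBounded_closedBall (x := (0 : Kf)) (r := 1)).subset ?_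
      intro g hg
      rw [mem_closedBall_zero_iff]
      exact hg.1
  -- the projection
  have hP : ∀ f : H, T f = T (Kf.starProjection f) := by
    intro f
    have h1 := hKT' _ (Kf.sub_starProjection_mem_orthogonal f)
    rw [map_sub, sub_eq_zero] at h1
    exact h1
  have hPoly : ∀ (p : Polynomial ℂ) (f : H), (Polynomial.aeval T (Polynomial.X * p)) f =
      (Polynomial.aeval T (Polynomial.X * p)) (Kf.starProjection f) := by
    intro p f
    rw [mul_comm, map_mul, Polynomial.aeval_X]
    show (Polynomial.aeval T p) (T f) = (Polynomial.aeval T p) (T (Kf.starProjection f))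
    rw [← hP]
  -- compactness
  have main : ∃ r : ℝ, 0 < r ∧ ∀ T' : H →L[ℂ] H, ‖T' - T‖ < r → ∀ f : H, ‖f‖ ≤ 1 →
      Kf.orthogonalProjectionOnto f ∈ C → ∃ y ∈ orb T' f, ‖y - a i‖ < ε := by
    refine IsCompact.induction_on (p := fun S : Set Kf => ∃ r : ℝ, 0 < r ∧ ∀ T' : H →L[ℂ] H,
      ‖T' - T‖ < r → ∀ f : H, ‖f‖ ≤ 1 → Kf.orthogonalProjectionOnto f ∈ S →
      ∃ y ∈ orb T' f, ‖y - a i‖ < ε) hCc ?_ ?_ ?_ ?_
    · exact ⟨1, one_pos, fun T' _ f _ h => absurd h (Set.notMem_empty _)⟩
    · rintro s t hst ⟨r, hr, h⟩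
      exact ⟨r, hr, fun T' hT' f hf hfs => h T' hT' f hf (hst hfs)⟩
    · rintro s t ⟨r1, hr1, h1⟩ ⟨r2, hr2, h2⟩
      refine ⟨min r1 r2, lt_min hr1 hr2, fun T' hT' f hf hfs => ?_⟩
      rcases hfs with hfs | hfs
      · exact h1 T' (lt_of_lt_of_le hT' (min_le_left _ _)) f hf hfs
      · exact h2 T' (lt_of_lt_of_le hT' (min_le_right _ _)) f hf hfs
    · intro g hg
      have hne : inner ℂ (a l - a i) (g : H) ≠ 0 := by
        intro h0
        have := hg.2
        rw [h0, norm_zero] at this
        linarith
      obtain ⟨p, hp⟩ := exists_aeval T g (a i) (hG g hne)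
      have hcont : Continuous fun g' : Kf =>
          ‖(Polynomial.aeval T (Polynomial.X * p)) (g' : H) - a i‖ :=
        (((Polynomial.aeval T (Polynomial.X * p)).continuous.comp
          continuous_subtype_val).sub continuous_const).norm
      refine ⟨{g' | ‖(Polynomial.aeval T (Polynomial.X * p)) (g' : H) - a i‖ < ε / 2}, ?_, ?_⟩
      · apply mem_nhdsWithin_of_mem_nhds
        refine (isOpen_lt hcont continuous_const).mem_nhds ?_
        show ‖(Polynomial.aeval T (Polynomial.X * p)) (g : H) - a i‖ < ε / 2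
        rw [hp, sub_self, norm_zero]
        positivity
      · have hcT : ContinuousAt (fun T' : H →L[ℂ] H =>
            Polynomial.aeval T' (Polynomial.X * p)) T :=
          (Polynomial.continuous_aeval (A := H →L[ℂ] H) (Polynomial.X * p)).continuousAt
        rw [Metric.continuousAt_iff] at hcT
        obtain ⟨r, hr, hr2⟩ := hcT (ε / 2) (by positivity)
        refine ⟨r, hr, fun T' hT' f hf hfs => ?_⟩
        refine ⟨_, aeval_mem_orb T' f p, ?_⟩
        have h1 := hr2 (x := T') (by rw [dist_eq_norm]; exact hT')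
        rw [dist_eq_norm] at h1
        have h2 : ‖(Polynomial.aeval T (Polynomial.X * p)) f - a i‖ < ε / 2 := by
          rw [hPoly]
          exact hfs
        have h3 : ‖(Polynomial.aeval T' (Polynomial.X * p)) f -
            (Polynomial.aeval T (Polynomial.X * p)) f‖ ≤ ε / 2 := by
          have h4 := (Polynomial.aeval T' (Polynomial.X * p) -
            Polynomial.aeval T (Polynomial.X * p)).le_opNorm f
          have h5 : ‖Polynomial.aeval T' (Polynomial.X * p) -
            Polynomial.aeval T (Polynomial.X * p)‖ * ‖f‖ ≤ (ε / 2) * 1 :=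
            mul_le_mul h1.le hf (norm_nonneg _) (by positivity)
          rw [mul_one] at h5
          exact h4.trans h5
        calc ‖(Polynomial.aeval T' (Polynomial.X * p)) f - a i‖
            = ‖((Polynomial.aeval T' (Polynomial.X * p)) f -
              (Polynomial.aeval T (Polynomial.X * p)) f) +
              ((Polynomial.aeval T (Polynomial.X * p)) f - a i)‖ := by
                congr 1; abel
          _ ≤ _ := norm_add_le _ _
          _ < ε / 2 + ε / 2 := by linarith
          _ = ε := by ring
  obtain ⟨r, hr, h⟩ := main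
  refine ⟨r, hr, fun T' hT' f hf hfδ => h T' hT' f hf ⟨?_, ?_⟩⟩
  · exact (Kf.norm_orthogonalProjectionOnto_apply_le f).trans hf
  · have h1 : inner ℂ (a l - a i) (f - Kf.starProjection f) = 0 :=
      Kf.sub_starProjection_mem_orthogonal f _ hmem
    rw [inner_sub_right, sub_eq_zero] at h1
    rw [h1] at hfδ
    exact hfδ

end H94N
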