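import Pool.Agent.H94R6.Spec

set_option autoImplicit false
open scoped Topology ENNReal
open Filter

noncomputable section
namespace H94N

/-- the open dense sets of the Baire argument -/
def N6_U {H ι : Type} [NormedAddCommGroup H] [InnerProductSpace ℂ H] [CompleteSpace H]
    [LinearOrder ι] [OrderBot ι] (a : ι → H) (q : ι × ι × ℕ × ℕ) :
    Set ((SS a).topologicalClosure) :=
  {T | q.1 ≤ q.2.1 → ∃ r : ℝ, 0 < r ∧ ∀ T' : H →L[ℂ] H, ‖T' - (T : H →L[ℂ] H)‖ < r →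
    ∀ f : H, ‖f‖ ≤ 1 → 1 / ((q.2.2.1 : ℝ) + 1) ≤ ‖inner ℂ (a q.2.1 - a q.1) f‖ →
      ∃ y ∈ orb T' f, ‖y - a q.1‖ < 1 / ((q.2.2.2 : ℝ) + 1)}

theorem N6_open {H ι : Type} [NormedAddCommGroup H] [InnerProductSpace ℂ H] [CompleteSpace H]
    [LinearOrder ι] [OrderBot ι] (a : ι → H) (q : ι × ι × ℕ × ℕ) : IsOpen (N6_U a q) := by
  rw [Metric.isOpen_iff]
  intro T hT
  by_cases hq : q.1 ≤ q.2.1
  · obtain ⟨r, hr, hr'⟩ := hT hq
    refine ⟨r / 2, half_pos hr, ?_⟩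
    intro T1 hT1 _
    refine ⟨r / 2, half_pos hr, ?_⟩
    intro T' hT'
    apply hr'
    have h1 : ‖(T1 : H →L[ℂ] H) - (T : H →L[ℂ] H)‖ < r / 2 := by
      rw [Metric.mem_ball, Subtype.dist_eq, dist_eq_norm] at hT1
      exact hT1
    calc ‖T' - (T : H →L[ℂ] H)‖ = ‖(T' - (T1 : H →L[ℂ] H)) + ((T1 : H →L[ℂ] H) - T)‖ := by
          congr 1; abel
      _ ≤ ‖T' - (T1 : H →L[ℂ] H)‖ + ‖(T1 : H →L[ℂ] H) - T‖ := norm_add_le _ _
      _ < r := by linarith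
  · exact ⟨1, one_pos, fun T1 _ h => absurd h hq⟩

theorem N6_dense (hN4 : S_N4) (hN5 : S_N5)
    {H ι : Type} [NormedAddCommGroup H] [InnerProductSpace ℂ H] [CompleteSpace H]
    [LinearOrder ι] [OrderBot ι] (a : ι → H) (ha : Chain a) (q : ι × ι × ℕ × ℕ) :
    Dense (N6_U a q) := by
  rw [Metric.dense_iff]
  intro T ε hε
  by_cases hq : q.1 ≤ q.2.1
  · have hT : (T : H →L[ℂ] H) ∈ closure ((SS a : Set (H →L[ℂ] H))) := T.2
    rw [Metric.mem_closure_iff] at hT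
    obtain ⟨S, hS, hST⟩ := hT (ε / 2) (half_pos hε)
    obtain ⟨S', hS', hSS', hgood⟩ := hN4 H ι a ha S hS q.1 q.2.1 hq (ε / 2) (half_pos hε)
    obtain ⟨r, hr, hr'⟩ := hN5 H ι a ha S' hS' q.1 q.2.1 hgood (1 / ((q.2.2.1 : ℝ) + 1))
      (1 / ((q.2.2.2 : ℝ) + 1)) Nat.one_div_pos_of_nat Nat.one_div_pos_of_nat
    refine ⟨⟨S', (SS a).le_topologicalClosure hS'⟩, ?_, fun _ => ⟨r, hr, hr'⟩⟩
    rw [Metric.mem_ball, Subtype.dist_eq, dist_eq_norm]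
    rw [dist_comm, dist_eq_norm] at hST
    calc ‖S' - (T : H →L[ℂ] H)‖ = ‖(S' - S) + (S - (T : H →L[ℂ] H))‖ := by
          congr 1; abel
      _ ≤ ‖S' - S‖ + ‖S - (T : H →L[ℂ] H)‖ := norm_add_le _ _
      _ < ε := by linarith
  · exact ⟨T, Metric.mem_ball_self hε, fun h => absurd h hq⟩

theorem N6_orb_smul {H : Type} [NormedAddCommGroup H] [InnerProductSpace ℂ H] [CompleteSpace H]
    (T : H →L[ℂ] H) (c : ℂ) (f : H) : orb T (c • f) ≤ orb T f := by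
  unfold orb
  rw [Submodule.span_le]
  rintro y ⟨j, hj, rfl⟩
  rw [map_smul]
  exact Submodule.smul_mem _ _ (Submodule.subset_span ⟨j, hj, rfl⟩)

theorem N6 (hN4 : S_N4) (hN5 : S_N5) : S_N6 := by
  intro H ι _ _ _ _ _ _ a ha
  have : CompleteSpace ((SS a).topologicalClosure) :=
    (SS a).isClosed_topologicalClosure.completeSpace_coe
  have hd : Dense (⋂ q, N6_U a q) :=
    dense_iInter_of_isOpen (N6_open a) (N6_dense hN4 hN5 a ha)
  obtain ⟨T, hT⟩ := hd.nonempty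
  refine ⟨T, T.2, ?_⟩
  intro i l hil f hf
  rw [← SetLike.mem_coe, Submodule.topologicalClosure_coe, Metric.mem_closure_iff]
  intro ε hε
  have hf0 : f ≠ 0 := by
    rintro rfl
    exact hf (inner_zero_right _)
  have hfn : 0 < ‖f‖ := norm_pos_iff.2 hf0
  set g : H := ((‖f‖ : ℂ)⁻¹) • f with hg
  have hgn : ‖g‖ ≤ 1 := by
    rw [hg, norm_smul, norm_inv, Complex.norm_real, norm_norm, inv_mul_cancel₀ hfn.ne']
  have hgi : inner ℂ (a l - a i) g ≠ 0 := by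
    rw [hg, inner_smul_right]
    refine mul_ne_zero (inv_ne_zero ?_) hf
    exact_mod_cast hfn.ne'
  obtain ⟨m, hm⟩ := exists_nat_one_div_lt (norm_pos_iff.2 hgi)
  obtain ⟨n, hn⟩ := exists_nat_one_div_lt hε
  have hT' := Set.mem_iInter.1 hT (i, l, m, n)
  obtain ⟨r, hr, hr'⟩ := hT' hil
  obtain ⟨y, hy, hy'⟩ := hr' (T : H →L[ℂ] H) (by rw [sub_self, norm_zero]; exact hr) g hgn hm.le
  refine ⟨y, N6_orb_smul _ _ _ hy, ?_⟩
  rw [dist_comm, dist_eq_norm]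
  exact hy'.trans hn

end H94N
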