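import Pool.Agent.H94R6.Spec

set_option autoImplicit false
open scoped Topology ENNReal
open Filter

noncomputable section
namespace H94N

namespace N7aux

variable {H ι : Type} [NormedAddCommGroup H] [InnerProductSpace ℂ H] [CompleteSpace H]
  [LinearOrder ι] [OrderBot ι]

lemma inner_cl {S : Set H} {u : H} (h : ∀ s ∈ S, inner ℂ u s = 0) :
    ∀ f ∈ (Submodule.span ℂ S).topologicalClosure, inner ℂ u f = 0 := by
  have h1 : (Submodule.span ℂ S).topologicalClosure ≤ LinearMap.ker (innerSL ℂ u : H →L[ℂ] ℂ).toLinearMap := by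
    apply Submodule.topologicalClosure_minimal
    · rw [Submodule.span_le]
      intro s hs
      simpa using h s hs
    · exact ContinuousLinearMap.isClosed_ker (innerSL ℂ u : H →L[ℂ] ℂ)
  intro f hf
  have := h1 hf
  simpa using this

lemma tot {a : ι → H} (ha : Chain a) (h : H) (hh : ∀ i, inner ℂ (a i) h = 0) : h = 0 := by
  have h1 : ∀ s ∈ Set.range a, inner ℂ h s = 0 := by
    rintro _ ⟨i, rfl⟩
    rw [← inner_conj_symm, hh i, map_zero]
  have h2 := inner_cl h1 h (by rw [ha.dense]; trivial)
  exact inner_self_eq_zero.1 h2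

lemma orth' {a : ι → H} (ha : Chain a) (i j : ι) (hij : i ≤ j) :
    inner ℂ (a j) (a i) = ((‖a i‖ ^ 2 : ℝ) : ℂ) := by
  rw [← inner_conj_symm, ha.orth i j hij, Complex.conj_ofReal]

lemma mem_N_of_le {a : ι → H} {i j : ι} (h : i ≤ j) : a i ∈ N a j :=
  Submodule.le_topologicalClosure _ (Submodule.subset_span ⟨i, h, rfl⟩)

lemma N_orth {a : ι → H} (ha : Chain a) {j : ι} {f : H} (hf : f ∈ N a j) (l : ι) (hl : j ≤ l) :
    inner ℂ (a l - a j) f = 0 := by
  refine inner_cl ?_ f hf
  rintro _ ⟨i, hi, rfl⟩
  have hi' : i ≤ j := hi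
  rw [inner_sub_left, orth' ha i l (hi'.trans hl), orth' ha i j hi', sub_self]

lemma exists_proj (K : Submodule ℂ H) (hK : IsClosed (K : Set H)) (f : H) :
    ∃ w ∈ K, ∀ u ∈ K, inner ℂ u (f - w) = 0 := by
  haveI : CompleteSpace K := hK.completeSpace_coe
  obtain ⟨w, hw, h⟩ := Submodule.HasOrthogonalProjection.exists_orthogonal (K := K) f
  exact ⟨w, hw, fun u hu => (Submodule.mem_orthogonal K _).1 h u hu⟩

lemma N_closed (a : ι → H) (j : ι) : IsClosed (N a j : Set H) :=
  Submodule.isClosed_topologicalClosure _

lemma mem_N {a : ι → H} (ha : Chain a) {j : ι} {f : H}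
    (hf : ∀ l, j ≤ l → inner ℂ (a l - a j) f = 0) : f ∈ N a j := by
  obtain ⟨w, hw, h⟩ := exists_proj (N a j) (N_closed a j) f
  have h1 : f - w = 0 := by
    apply tot ha
    intro l
    rcases le_total l j with hl | hl
    · exact h _ (mem_N_of_le hl)
    · have e : a l = (a l - a j) + a j := by abel
      rw [e, inner_add_left, inner_sub_right, hf l hl, N_orth ha hw l hl, h _ (mem_N_of_le le_rfl)]
      simp
  rw [sub_eq_zero] at h1
  rw [h1]; exact hw

lemma mem_NU {a : ι → H} (ha : Chain a) {L : Set ι} {f : H} :
    f ∈ NU a L ↔ ∀ j, j ∉ L → f ∈ N a j := by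
  constructor
  · intro h j hj
    exact mem_N ha (fun l hl => h j hj l hl)
  · intro h j hj l hl
    exact N_orth ha (h j hj) l hl

lemma orb_le {T : H →L[ℂ] H} {W : Submodule ℂ H} (hW : IsClosed (W : Set H)) (hT : ∀ x ∈ W, T x ∈ W)
    {f : H} (hf : f ∈ W) : (orb T f).topologicalClosure ≤ W := by
  apply Submodule.topologicalClosure_minimal _ _ hW
  unfold orb
  rw [Submodule.span_le]
  rintro _ ⟨j, _, rfl⟩
  have key : ∀ j : ℕ, (T ^ j) f ∈ W := by
    intro j
    induction j with
    | zero => simpa using hf
    | succ n ih =>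
      rw [pow_succ']
      exact hT _ ih
  exact key j

end N7aux

open N7aux

theorem N7 (hN1 : S_N1) (hN6 : S_N6) : S_N7 := by
  intro H ι _ _ _ _ _ _ a ha
  obtain ⟨T, hT, hgood⟩ := hN6 H ι a ha
  have hinv := hN1 H ι a ha T hT
  refine ⟨T, fun W => ⟨?_, ?_⟩⟩
  · rintro ⟨hW, hTW⟩
    have hC : ∀ f ∈ W, ∀ j, f ∉ N a j → a j ∈ W := by
      intro f hf j hj
      by_contra hc
      apply hj
      apply mem_N ha
      intro l hl
      by_contra hne
      exact hc (orb_le hW hTW hf (hgood j l hl f hne))
    set L : Set ι := {i | a i ∈ W} with hL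
    have hlow : IsLowerSet L := by
      intro i j hji hi
      rcases hji.eq_or_lt with rfl | hlt
      · exact hi
      · apply hC (a i) hi j
        intro hmem
        have h1 := N_orth ha hmem i hji
        have h2 := N_orth ha (mem_N_of_le (a := a) (le_refl j)) i hji
        have h3 : inner ℂ (a i - a j) (a i - a j) = 0 := by
          rw [inner_sub_right, h1, h2, sub_self]
        have h4 := sub_eq_zero.1 (inner_self_eq_zero.1 h3)
        exact hlt.ne' (ha.inj h4)
    have hNL : NL a L ≤ W := by
      apply Submodule.topologicalClosure_minimal _ _ hW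
      rw [Submodule.span_le]
      rintro _ ⟨i, hi, rfl⟩
      exact hi
    have hNU : W ≤ NU a L := by
      intro f hf
      rw [mem_NU ha]
      intro j hj
      by_contra hc
      exact hj (hC f hf j hc)
    refine ⟨L, hlow, ?_⟩
    by_cases hEq : W = NL a L
    · exact Or.inl hEq
    · right
      apply le_antisymm hNU
      have hNLc : IsClosed (NL a L : Set H) := Submodule.isClosed_topologicalClosure _
      obtain ⟨f, hf, hfn⟩ : ∃ f ∈ W, f ∉ NL a L := by
        by_contra hc
        push Not at hc
        exact hEq (le_antisymm hc hNL)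
      obtain ⟨w, hw, hwo⟩ := exists_proj (NL a L) hNLc f
      set f' := f - w with hf'
      have hf'W : f' ∈ W := W.sub_mem hf (hNL hw)
      have hf'0 : f' ≠ 0 := by
        intro h0
        rw [hf', sub_eq_zero] at h0
        exact hfn (h0 ▸ hw)
      have hmemL : ∀ i ∈ L, a i ∈ NL a L := fun i hi =>
        Submodule.le_topologicalClosure _ (Submodule.subset_span ⟨i, hi, rfl⟩)
      -- values outside L are constant
      have hconst : ∀ x ∈ NU a L, ∀ j j', j ∉ L → j' ∉ L → inner ℂ (a j) x = inner ℂ (a j') x := by
        intro x hx j j' hj hj'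
        rcases le_total j j' with h | h
        · have := hx j hj j' h
          rw [inner_sub_left, sub_eq_zero] at this
          exact this.symm
        · have := hx j' hj' j h
          rw [inner_sub_left, sub_eq_zero] at this
          exact this
      obtain ⟨j0, hj0⟩ : ∃ j, j ∉ L := by
        by_contra hc
        push Not at hc
        apply hf'0
        apply tot ha
        intro i
        exact hwo _ (hmemL i (hc i))
      have hφ : inner ℂ (a j0) f' ≠ 0 := by
        intro h0
        apply hf'0
        apply tot ha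
        intro i
        by_cases hi : i ∈ L
        · exact hwo _ (hmemL i hi)
        · rw [hconst f' (hNU hf'W) i j0 hi hj0, h0]
      intro g hg
      obtain ⟨u, hu, huo⟩ := exists_proj (NL a L) hNLc g
      set g' := g - u with hg'
      have hg'U : g' ∈ NU a L := (NU a L).sub_mem hg (hNU (hNL hu))
      have hz : (inner ℂ (a j0) f') • g' - (inner ℂ (a j0) g') • f' = 0 := by
        apply tot ha
        intro i
        rw [inner_sub_right, inner_smul_right, inner_smul_right]
        by_cases hi : i ∈ L
        · rw [hwo _ (hmemL i hi), huo _ (hmemL i hi)]; ring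
        · rw [hconst f' (hNU hf'W) i j0 hi hj0, hconst g' hg'U i j0 hi hj0]; ring
      have hg'W : g' ∈ W := by
        have h1 : g' = (inner ℂ (a j0) f')⁻¹ • ((inner ℂ (a j0) g') • f') := by
          rw [sub_eq_zero] at hz
          rw [← hz, smul_smul, inv_mul_cancel₀ hφ, one_smul]
        rw [h1]
        exact W.smul_mem _ (W.smul_mem _ hf'W)
      have : g = g' + u := by rw [hg']; abel
      rw [this]
      exact W.add_mem hg'W (hNL hu)
  · rintro ⟨L, hlow, rfl | rfl⟩
    · refine ⟨Submodule.isClosed_topologicalClosure _, ?_⟩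
      have h1 : NL a L ≤ (NL a L).comap T.toLinearMap := by
        apply Submodule.topologicalClosure_minimal
        · rw [Submodule.span_le]
          rintro _ ⟨i, hi, rfl⟩
          have h2 : T (a i) ∈ N a i := hinv i (a i) (mem_N_of_le le_rfl)
          have h3 : N a i ≤ NL a L := by
            apply Submodule.topologicalClosure_mono
            apply Submodule.span_mono
            rintro _ ⟨j, hj, rfl⟩
            exact ⟨j, hlow hj hi, rfl⟩
          exact h3 h2
        · exact (Submodule.isClosed_topologicalClosure _).preimage T.continuous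
      intro x hx
      exact h1 hx
    · constructor
      · have h1 : (NU a L : Set H) = ⋂ j : {j // j ∉ L}, (N a j.1 : Set H) := by
          ext f
          rw [Set.mem_iInter]
          exact ⟨fun h j => (mem_NU ha).1 h j.1 j.2, fun h => (mem_NU ha).2 fun j hj => h ⟨j, hj⟩⟩
        rw [h1]
        exact isClosed_iInter fun j => N_closed a j.1
      · intro x hx
        rw [mem_NU ha] at hx ⊢
        intro j hj
        exact hinv j x (hx j hj)

end H94N
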