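import Pool.Agent.H94R6.Spec

set_option autoImplicit false
open scoped Topology ENNReal
open Filter MeasureTheory

noncomputable section
namespace H94N

/-- indicator function of an interval -/
def O1_v (c t : ℝ) : Lp ℂ 2 (volume : Measure ℝ) :=
  indicatorConstLp 2 (measurableSet_Ioc (a := c) (b := t)) measure_Ioc_lt_top.ne (1 : ℂ)

theorem O1_inner (c s t : ℝ) (hs : c ≤ s) (ht : c ≤ t) :
    inner ℂ (O1_v c s) (O1_v c t) = ((min s t - c : ℝ) : ℂ) := by
  unfold O1_v
  rw [L2.inner_indicatorConstLp_one_indicatorConstLp_one (hμs := measure_Ioc_lt_top.ne)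
    (hμt := measure_Ioc_lt_top.ne)]
  have h1 : Set.Ioc c s ∩ Set.Ioc c t = Set.Ioc c (min s t) := by
    rw [Set.Ioc_inter_Ioc, max_self]
  rw [h1, Real.volume_real_Ioc_of_le (le_min hs ht)]
  rfl

theorem O1_dense {E : Type} [NormedAddCommGroup E] [InnerProductSpace ℂ E] (S : Type) (v : S → E)
    (a : S → ((Submodule.span ℂ (Set.range v)).topologicalClosure)) (ha : ∀ s, (a s : E) = v s) :
    (Submodule.span ℂ (Set.range a)).topologicalClosure = ⊤ := by
  rw [eq_top_iff]
  intro x _
  have h1 : (x : E) ∈ closure ((Submodule.span ℂ (Set.range v) : Submodule ℂ E) : Set E) := by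
    have := x.2
    rwa [← SetLike.mem_coe, Submodule.topologicalClosure_coe] at this
  rw [← SetLike.mem_coe, Submodule.topologicalClosure_coe,
    Topology.IsInducing.subtypeVal.closure_eq_preimage_closure_image, Set.mem_preimage]
  have h2 : (Subtype.val '' ((Submodule.span ℂ (Set.range a) : Submodule ℂ _) :
      Set ((Submodule.span ℂ (Set.range v)).topologicalClosure))) =
      ((Submodule.span ℂ (Set.range v) : Submodule ℂ E) : Set E) := by
    have h3 := Submodule.map_span
      (Submodule.subtype (Submodule.span ℂ (Set.range v)).topologicalClosure) (Set.range a)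
    have h4 : (Submodule.subtype (Submodule.span ℂ (Set.range v)).topologicalClosure) ''
        Set.range a = Set.range v := by
      rw [← Set.range_comp]
      congr 1
      funext s
      exact ha s
    rw [h4] at h3
    exact congrArg (fun Q : Submodule ℂ E => (Q : Set E)) h3
  have h6 : (x : E) ∈ closure (Subtype.val '' ((Submodule.span ℂ (Set.range a) :
      Submodule ℂ _) : Set ((Submodule.span ℂ (Set.range v)).topologicalClosure))) := by
    rw [h2]
    exact h1
  exact h6

theorem O1 : S_O1 := by
  intro F hF hne
  set c := sInf F with hc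
  have hle : ∀ t : F, c ≤ (t : ℝ) := fun t => csInf_le hF.bddBelow t.2
  set v : F → Lp ℂ 2 (volume : Measure ℝ) := fun t => O1_v c t with hv
  set K := (Submodule.span ℂ (Set.range v)).topologicalClosure with hK
  have hcl : IsClosed (K : Set (Lp ℂ 2 (volume : Measure ℝ))) :=
    Submodule.isClosed_topologicalClosure _
  have : CompleteSpace K := hcl.completeSpace_coe
  have : Fact ((2 : ℝ≥0∞) ≠ ∞) := ⟨by norm_num⟩
  have : SecondCountableTopology (Lp ℂ 2 (volume : Measure ℝ)) := inferInstance
  have : SecondCountableTopology K := inferInstance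
  have : TopologicalSpace.SeparableSpace K := inferInstance
  let a : F → K := fun t => ⟨v t, subset_closure (Submodule.subset_span ⟨t, rfl⟩)⟩
  refine ⟨K, inferInstance, inferInstance, inferInstance, inferInstance, a, ?_, ?_⟩
  · intro s t
    exact O1_inner c s t (hle s) (hle t)
  · exact O1_dense F v a fun s => rfl

end H94N
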