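import Pool.Agent.H94R6.Spec

/-! O2: countable dense subset containing all gap end points -/

set_option autoImplicit false
open scoped Topology ENNReal
open Filter

namespace H94N

private theorem O2_right {F : Set ℝ} {s t : ℝ} (hst : s < t) (h : F ∩ Set.Ioo s t = ∅) :
    𝓝[F ∩ Set.Ioi s] s = ⊥ := by
  rw [← empty_mem_iff_bot, mem_nhdsWithin_iff_exists_mem_nhds_inter]
  refine ⟨Set.Iio t, Iio_mem_nhds hst, ?_⟩
  rintro x ⟨hx1, hx2, hx3⟩
  rw [← h]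
  exact ⟨hx2, hx3, hx1⟩

private theorem O2_left {F : Set ℝ} {s t : ℝ} (hst : s < t) (h : F ∩ Set.Ioo s t = ∅) :
    𝓝[F ∩ Set.Iio t] t = ⊥ := by
  rw [← empty_mem_iff_bot, mem_nhdsWithin_iff_exists_mem_nhds_inter]
  refine ⟨Set.Ioi s, Ioi_mem_nhds hst, ?_⟩
  rintro x ⟨hx1, hx2, hx3⟩
  rw [← h]
  exact ⟨hx2, hx1, hx3⟩

theorem O2 : S_O2 := by
  intro F hF hne
  obtain ⟨D0, hD0F, hD0c, hD0d⟩ := hF.isSeparable.exists_countable_dense_subset
  have hinf : sInf F ∈ F := hF.sInf_mem hne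
  refine ⟨D0 ∪ {sInf F} ∪ ({x ∈ F | 𝓝[F ∩ Set.Ioi x] x = ⊥} ∪
    {x ∈ F | 𝓝[F ∩ Set.Iio x] x = ⊥}), ?_, ?_, ?_, ?_, ?_⟩
  · rintro x ((hx | hx) | (hx | hx))
    · exact hD0F hx
    · rw [Set.mem_singleton_iff] at hx
      rw [hx]
      exact hinf
    · exact hx.1
    · exact hx.1
  · exact (hD0c.union (Set.countable_singleton _)).union
      (countable_setOfPred_isolated_right_within.union
        countable_setOfPred_isolated_left_within)
  · exact Or.inl (Or.inr rfl)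
  · intro t ht ε hε
    obtain ⟨s, hs, hst⟩ := Metric.mem_closure_iff.mp (hD0d ht) ε hε
    refine ⟨s, Or.inl (Or.inl hs), ?_⟩
    rw [Real.dist_eq] at hst
    rwa [abs_sub_comm]
  · intro s hs t ht hst h
    exact ⟨Or.inr (Or.inl ⟨hs, O2_right hst h⟩), Or.inr (Or.inr ⟨ht, O2_left hst h⟩)⟩

end H94N
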