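import Pool.Agent.H94R6.Spec

set_option autoImplicit false
open scoped Topology ENNReal
open Filter

noncomputable section
namespace H94N
namespace ORDaux

variable {H : Type} [NormedAddCommGroup H] [InnerProductSpace ℂ H] [CompleteSpace H]

theorem normsq {F : Set ℝ} {a : F → H} {m : ℝ}
    (hG : ∀ s t : F, inner ℂ (a s) (a t) = (((min (s : ℝ) t - m : ℝ)) : ℂ)) (s t : F) :
    ‖a s - a t‖ ^ 2 = |(s : ℝ) - t| := by
  have h1 : (((‖a s - a t‖ ^ 2 : ℝ)) : ℂ) = inner ℂ (a s - a t) (a s - a t) := by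
    rw [inner_self_eq_norm_sq_to_K]; push_cast; rfl
  rw [inner_sub_left, inner_sub_right, inner_sub_right, hG, hG, hG, hG] at h1
  have h2 : ‖a s - a t‖ ^ 2 = (min (s : ℝ) s - m) - (min (s : ℝ) t - m) -
      ((min (t : ℝ) s - m) - (min (t : ℝ) t - m)) := by
    exact_mod_cast h1
  rw [h2, min_self, min_self]
  rcases le_total (s : ℝ) t with h | h
  · rw [min_eq_left h, min_eq_right h, abs_of_nonpos (by linarith)]; ring
  · rw [min_eq_right h, min_eq_left h, abs_of_nonneg (by linarith)]; ring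

theorem closeness {F : Set ℝ} {a : F → H} {m : ℝ}
    (hG : ∀ s t : F, inner ℂ (a s) (a t) = (((min (s : ℝ) t - m : ℝ)) : ℂ)) {s t : F} {δ : ℝ}
    (hδ : 0 < δ) (h : |(s : ℝ) - t| < δ ^ 2) : ‖a s - a t‖ < δ := by
  rw [← normsq hG] at h
  exact lt_of_pow_lt_pow_left₀ 2 hδ.le h

/-- nest elements indexed by `F` -/
def Nt {F : Set ℝ} (D : Set ℝ) (hDF : D ⊆ F) (a : F → H) (t : F) : Submodule ℂ H :=
  (Submodule.span ℂ ((fun d : D => a ⟨d, hDF d.2⟩) '' {s : D | (s : ℝ) ≤ t})).topologicalClosure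

theorem Nt_closed {F : Set ℝ} (D : Set ℝ) (hDF : D ⊆ F) (a : F → H) (t : F) :
    IsClosed (Nt D hDF a t : Set H) := Submodule.isClosed_topologicalClosure _

theorem Nt_mono {F : Set ℝ} (D : Set ℝ) (hDF : D ⊆ F) (a : F → H) {s t : F} (h : (s : ℝ) ≤ t) :
    Nt D hDF a s ≤ Nt D hDF a t := by
  apply Submodule.topologicalClosure_mono
  apply Submodule.span_mono
  apply Set.image_mono
  intro x hx
  exact le_trans hx h

theorem left_approx {F D : Set ℝ} (hF : IsCompact F) (hDF : D ⊆ F) (hm : sInf F ∈ D)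
    (hd : ∀ t ∈ F, ∀ ε : ℝ, 0 < ε → ∃ s ∈ D, |s - t| < ε)
    (hgap : ∀ s ∈ F, ∀ t ∈ F, s < t → F ∩ Set.Ioo s t = ∅ → s ∈ D ∧ t ∈ D) (t : ℝ) (ht : t ∈ F)
    (ε : ℝ) (hε : 0 < ε) : ∃ s ∈ D, s ≤ t ∧ t - ε < s := by
  by_cases htD : t ∈ D
  · exact ⟨t, htD, le_rfl, by linarith⟩
  by_contra hcon
  push Not at hcon
  have hmt : sInf F < t := by
    have h1 : sInf F ≤ t := csInf_le hF.bddBelow ht
    rcases h1.lt_or_eq with h | h
    · exact h
    · exact absurd (h ▸ hm) htD
  have hempty : ∀ x ∈ F, x < t → x ≤ t - ε := by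
    intro x hx hxt
    by_contra hx2
    push Not at hx2
    obtain ⟨s, hs, hsx⟩ := hd x hx (min (x - (t - ε)) (t - x)) (lt_min (by linarith) (by linarith))
    have h1 := abs_lt.1 hsx
    have h2 := min_le_left (x - (t - ε)) (t - x)
    have h3 := min_le_right (x - (t - ε)) (t - x)
    have := hcon s hs (by linarith)
    linarith
  have hcomp : IsCompact (F ∩ Set.Iic (t - ε)) := hF.inter_right isClosed_Iic
  have hne : (F ∩ Set.Iic (t - ε)).Nonempty := ⟨sInf F, hDF hm, hempty _ (hDF hm) hmt⟩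
  have hσ := hcomp.sSup_mem hne
  set σ := sSup (F ∩ Set.Iic (t - ε)) with hσdef
  have hσ2 : σ ≤ t - ε := hσ.2
  refine htD (hgap σ hσ.1 t ht (by linarith) ?_).2
  ext x
  simp only [Set.mem_inter_iff, Set.mem_Ioo, Set.mem_empty_iff_false, iff_false, not_and]
  intro hx hx1
  push Not
  by_contra hx2
  push Not at hx2
  have h1 := hempty x hx hx2
  have h2 : x ≤ σ := le_csSup hcomp.bddAbove ⟨hx, h1⟩
  linarith

section
variable {F D : Set ℝ} (hF : IsCompact F) (hDF : D ⊆ F) (hm : sInf F ∈ D)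
    (hd : ∀ t ∈ F, ∀ ε : ℝ, 0 < ε → ∃ s ∈ D, |s - t| < ε)
    (hgap : ∀ s ∈ F, ∀ t ∈ F, s < t → F ∩ Set.Ioo s t = ∅ → s ∈ D ∧ t ∈ D)
    {a : F → H} {m : ℝ}
    (hG : ∀ s t : F, inner ℂ (a s) (a t) = (((min (s : ℝ) t - m : ℝ)) : ℂ))
    (hdense : (Submodule.span ℂ (Set.range a)).topologicalClosure = ⊤)

include hF hm hd hgap hG in
theorem a_mem (t : F) : a t ∈ Nt D hDF a t := by
  rw [← SetLike.mem_coe, Nt, Submodule.topologicalClosure_coe, Metric.mem_closure_iff]
  intro δ hδ
  obtain ⟨s, hs, hst, hst2⟩ := left_approx hF hDF hm hd hgap t t.2 (δ ^ 2) (by positivity)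
  refine ⟨a ⟨s, hDF hs⟩, Submodule.subset_span ⟨⟨s, hs⟩, hst, rfl⟩, ?_⟩
  rw [dist_comm, dist_eq_norm]
  apply closeness hG hδ
  show |s - (t : ℝ)| < δ ^ 2
  rw [abs_lt]
  constructor <;> linarith [sq_nonneg δ, pow_pos hδ 2]

include hG in
theorem K3 (t : F) (f : H) (hf : f ∈ Nt D hDF a t) (l : F) (hl : (t : ℝ) ≤ l) :
    inner ℂ (a l - a t) f = 0 := by
  have hK : Nt D hDF a t ≤ (LinearMap.ker (innerSL ℂ (a l - a t)).toLinearMap) := by
    apply Submodule.topologicalClosure_minimal
    · rw [Submodule.span_le]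
      rintro _ ⟨s, hs, rfl⟩
      have hs' : (s : ℝ) ≤ t := hs
      simp only [SetLike.mem_coe, LinearMap.mem_ker, ContinuousLinearMap.coe_coe,
        innerSL_apply_apply]
      rw [inner_sub_left, hG, hG]
      have e1 : min (l : ℝ) ((⟨s, hDF s.2⟩ : F) : ℝ) = s := min_eq_right (le_trans hs' hl)
      have e2 : min (t : ℝ) ((⟨s, hDF s.2⟩ : F) : ℝ) = s := min_eq_right hs'
      rw [e1, e2, sub_self]
    · exact (innerSL ℂ (a l - a t)).isClosed_ker
  have := hK hf
  simpa using this

include hF hm hd hgap hG hdense in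
theorem K4 (t : F) (f : H) (hf : ∀ l : F, (t : ℝ) ≤ l → inner ℂ (a l - a t) f = 0) :
    f ∈ Nt D hDF a t := by
  have : CompleteSpace (Nt D hDF a t) := (Nt_closed D hDF a t).completeSpace_coe
  set K := Nt D hDF a t with hKdef
  set g : H := f - K.starProjection f with hgdef
  have hg1 : ∀ x ∈ K, inner ℂ x g = 0 := by
    intro x hx
    exact (Submodule.mem_orthogonal K g).1 (Submodule.sub_starProjection_mem_orthogonal f) x hx
  have hPK : K.starProjection f ∈ K := Submodule.starProjection_apply_mem K f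
  have hg2 : ∀ l : F, inner ℂ (a l) g = 0 := by
    intro l
    rcases le_total (t : ℝ) l with h | h
    · have h1 : inner ℂ (a l - a t) g = 0 := by
        rw [hgdef, inner_sub_right, hf l h, K3 hDF hG t _ hPK l h, sub_zero]
      have h2 : inner ℂ (a t) g = 0 := hg1 _ (a_mem hF hDF hm hd hgap hG t)
      rw [inner_sub_left, h2, sub_zero] at h1
      exact h1
    · exact hg1 _ (Nt_mono D hDF a h (a_mem hF hDF hm hd hgap hG l))
  have hg3 : g = 0 := by
    have hK : (Submodule.span ℂ (Set.range a)).topologicalClosure ≤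
        (LinearMap.ker (innerSL ℂ g).toLinearMap) := by
      apply Submodule.topologicalClosure_minimal
      · rw [Submodule.span_le]
        rintro _ ⟨s, rfl⟩
        simp only [SetLike.mem_coe, LinearMap.mem_ker, ContinuousLinearMap.coe_coe,
          innerSL_apply_apply]
        rw [← inner_conj_symm, hg2, map_zero]
      · exact (innerSL ℂ g).isClosed_ker
    rw [hdense] at hK
    have := hK (Submodule.mem_top : g ∈ ⊤)
    simpa using this
  have : f = K.starProjection f := sub_eq_zero.1 hg3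
  rw [this]; exact hPK

end

end ORDaux

open ORDaux

theorem ORD (h7 : S_N7) (h1 : S_O1) (h2 : S_O2) : S_ORD := by
  intro F hF hFne
  obtain ⟨H, i1, i2, i3, i4, a, hG, hdense⟩ := h1 F hF hFne
  obtain ⟨D, hDF, hDc, hm, hd, hgap⟩ := h2 F hF hFne
  have hFcl : IsClosed F := hF.isClosed
  haveI : Countable D := hDc.to_subtype
  letI : OrderBot D := { bot := ⟨sInf F, hm⟩, bot_le := fun x => csInf_le hF.bddBelow (hDF x.2) }
  have hbotc : ((⊥ : D) : ℝ) = sInf F := rfl
  set a' : D → H := fun d => a ⟨d, hDF d.2⟩ with ha'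
  have hG' : ∀ s t : D, inner ℂ (a' s) (a' t) = (((min (s : ℝ) t - sInf F : ℝ)) : ℂ) :=
    fun s t => hG _ _
  have ham0 : ∀ s : F, (s : ℝ) = sInf F → a s = 0 := by
    intro s hs
    have h3 := hG s s
    rw [min_self, hs, sub_self, Complex.ofReal_zero, inner_self_eq_zero] at h3
    exact h3
  have hch : Chain a' := by
    refine ⟨ham0 _ rfl, ?_, ?_, ?_⟩
    · intro s t hst
      have h3 := normsq hG (⟨s, hDF s.2⟩ : F) ⟨t, hDF t.2⟩
      have h4 : a ⟨s, hDF s.2⟩ - a ⟨t, hDF t.2⟩ = 0 := sub_eq_zero.2 hst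
      rw [h4, norm_zero] at h3
      have h5 : |(s : ℝ) - t| = 0 := by
        rw [← h3]; norm_num
      exact Subtype.ext (sub_eq_zero.1 (abs_eq_zero.1 h5))
    · intro i j hij
      have e1 : ((‖a' i‖ ^ 2 : ℝ) : ℂ) = inner ℂ (a' i) (a' i) := by
        rw [inner_self_eq_norm_sq_to_K]; push_cast; rfl
      rw [e1, hG', hG', min_self, min_eq_left (show (i : ℝ) ≤ j from hij)]
    · rw [eq_top_iff, ← hdense]
      apply Submodule.topologicalClosure_minimal _ _ (Submodule.isClosed_topologicalClosure _)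
      rw [Submodule.span_le]
      rintro _ ⟨t, rfl⟩
      rw [Submodule.topologicalClosure_coe, Metric.mem_closure_iff]
      intro δ hδ
      obtain ⟨s, hs, hst⟩ := hd t t.2 (δ ^ 2) (by positivity)
      refine ⟨a ⟨s, hDF hs⟩, Submodule.subset_span ⟨⟨s, hs⟩, rfl⟩, ?_⟩
      rw [dist_comm, dist_eq_norm]
      exact closeness hG hδ hst
  obtain ⟨T, hT⟩ := h7 H D a' hch
  have hNtNL : ∀ t : F, Nt D hDF a t = NL a' {s : D | (s : ℝ) ≤ t} := fun t => rfl
  -- the map
  let φ : F → LatT T := fun t => ⟨Nt D hDF a t, (hT _).2 ⟨{s : D | (s : ℝ) ≤ t},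
    fun x y hxy hx => le_trans (show (y : ℝ) ≤ x from hxy) hx, Or.inl rfl⟩⟩
  have hφm : StrictMono φ := by
    intro s t hst
    have hst' : (s : ℝ) < t := hst
    rw [lt_iff_le_not_ge]
    refine ⟨Nt_mono D hDF a hst'.le, fun hle => ?_⟩
    have hle' : Nt D hDF a t ≤ Nt D hDF a s := hle
    have ht1 : a t ∈ Nt D hDF a s := hle' (a_mem hF hDF hm hd hgap hG t)
    have hs1 : a s ∈ Nt D hDF a s := a_mem hF hDF hm hd hgap hG s
    have h3 := K3 hDF hG s (a t - a s) (Submodule.sub_mem _ ht1 hs1) t hst'.le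
    rw [inner_self_eq_zero] at h3
    have h4 := normsq hG t s
    rw [h3, norm_zero, abs_of_pos (by linarith)] at h4
    norm_num at h4
    linarith
  have hφs : Function.Surjective φ := by
    rintro ⟨W, hW⟩
    obtain ⟨L, hL, hWL⟩ := (hT W).1 hW
    suffices h : ∃ t : F, Nt D hDF a t = W by
      obtain ⟨t, ht⟩ := h
      exact ⟨t, Subtype.ext ht⟩
    rcases hWL with hWL | hWL
    · rcases L.eq_empty_or_nonempty with hLe | hLne
      · refine ⟨⟨sInf F, hDF hm⟩, ?_⟩
        rw [hWL, hLe]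
        apply le_antisymm
        · apply Submodule.topologicalClosure_minimal _ _ (Submodule.isClosed_topologicalClosure _)
          rw [Submodule.span_le]
          rintro _ ⟨s, hs, rfl⟩
          have hs' : (s : ℝ) ≤ sInf F := hs
          have : a ⟨s, hDF s.2⟩ = 0 := ham0 _ (le_antisymm hs' (csInf_le hF.bddBelow (hDF s.2)))
          show a ⟨s, hDF s.2⟩ ∈ _
          rw [this]
          exact Submodule.zero_mem _
        · apply Submodule.topologicalClosure_mono
          apply Submodule.span_mono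
          apply Set.image_mono
          exact Set.empty_subset _
      · have hbdd : BddAbove ((fun d : D => (d : ℝ)) '' L) :=
          hF.bddAbove.mono (by rintro _ ⟨d, _, rfl⟩; exact hDF d.2)
        have hne : ((fun d : D => (d : ℝ)) '' L).Nonempty := hLne.image _
        set τ := sSup ((fun d : D => (d : ℝ)) '' L) with hτ
        have hτF : τ ∈ F := by
          have := csSup_mem_closure hne hbdd
          exact hFcl.closure_subset_iff.2 (by rintro _ ⟨d, _, rfl⟩; exact hDF d.2) this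
        refine ⟨⟨τ, hτF⟩, ?_⟩
        rw [hWL]
        apply le_antisymm
        · apply Submodule.topologicalClosure_minimal _ _ (Submodule.isClosed_topologicalClosure _)
          rw [Submodule.span_le]
          rintro _ ⟨s, hs, rfl⟩
          have hs' : (s : ℝ) ≤ τ := hs
          show a' s ∈ (((Submodule.span ℂ (a' '' L)).topologicalClosure : Submodule ℂ H) : Set H)
          rw [Submodule.topologicalClosure_coe, Metric.mem_closure_iff]
          intro δ hδ
          obtain ⟨_, ⟨l, hl, rfl⟩, hl2⟩ := exists_lt_of_lt_csSup hne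
            (show τ - δ ^ 2 < τ by have := pow_pos hδ 2; linarith)
          have hlτ : (l : ℝ) ≤ τ := le_csSup hbdd ⟨l, hl, rfl⟩
          rcases le_total (s : ℝ) l with h | h
          · refine ⟨a' s, Submodule.subset_span ⟨s, hL (show s ≤ l from h) hl, rfl⟩, ?_⟩
            rw [dist_self]; exact hδ
          · refine ⟨a' l, Submodule.subset_span ⟨l, hl, rfl⟩, ?_⟩
            rw [dist_eq_norm]
            apply closeness hG hδ
            show |(s : ℝ) - l| < δ ^ 2
            rw [abs_of_nonneg (by linarith)]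
            have hl3 : τ - δ ^ 2 < (l : ℝ) := hl2
            linarith
        · apply Submodule.topologicalClosure_mono
          apply Submodule.span_mono
          apply Set.image_mono
          intro l hl
          exact le_csSup hbdd ⟨l, hl, rfl⟩
    · by_cases hLu : L = Set.univ
      · have hMF : sSup F ∈ F := hF.sSup_mem hFne
        refine ⟨⟨sSup F, hMF⟩, ?_⟩
        rw [hWL]
        apply le_antisymm
        · intro f _ j hj
          exact absurd (hLu ▸ Set.mem_univ j) hj
        · intro f _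
          apply K4 hF hDF hm hd hgap hG hdense
          intro l hl
          have h3 : (l : ℝ) = sSup F := le_antisymm (le_csSup hF.bddAbove l.2) hl
          have h4 : l = ⟨sSup F, hMF⟩ := Subtype.ext h3
          rw [h4, sub_self, inner_zero_left]
      · obtain ⟨j0, hj0⟩ := (Set.ne_univ_iff_exists_notMem L).1 hLu
        have hbdd : BddBelow ((fun d : D => (d : ℝ)) '' Lᶜ) :=
          hF.bddBelow.mono (by rintro _ ⟨d, _, rfl⟩; exact hDF d.2)
        have hne : ((fun d : D => (d : ℝ)) '' Lᶜ).Nonempty := ⟨_, j0, hj0, rfl⟩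
        set υ := sInf ((fun d : D => (d : ℝ)) '' Lᶜ) with hυ
        have hυF : υ ∈ F := by
          have := csInf_mem_closure hne hbdd
          exact hFcl.closure_subset_iff.2 (by rintro _ ⟨d, _, rfl⟩; exact hDF d.2) this
        refine ⟨⟨υ, hυF⟩, ?_⟩
        rw [hWL]
        apply le_antisymm
        · intro f hf j hj l hjl
          have hυj : υ ≤ (j : ℝ) := csInf_le hbdd ⟨j, hj, rfl⟩
          have hjl' : (j : ℝ) ≤ l := hjl
          have e1 := K3 hDF hG ⟨υ, hυF⟩ f hf ⟨l, hDF l.2⟩ (le_trans hυj hjl')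
          have e2 := K3 hDF hG ⟨υ, hυF⟩ f hf ⟨j, hDF j.2⟩ hυj
          rw [inner_sub_left] at e1 e2 ⊢
          show inner ℂ (a ⟨l, hDF l.2⟩) f - inner ℂ (a ⟨j, hDF j.2⟩) f = 0
          rw [sub_eq_zero.1 e1, sub_eq_zero.1 e2, sub_self]
        · intro f hf
          apply K4 hF hDF hm hd hgap hG hdense
          intro l hl
          have hl' : υ ≤ (l : ℝ) := hl
          rcases hl'.eq_or_lt with h | h
          · have h4 : l = ⟨υ, hυF⟩ := Subtype.ext h.symm
            rw [h4, sub_self, inner_zero_left]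
          · have key : ∀ δ : ℝ, 0 < δ → ‖inner ℂ (a l - a ⟨υ, hυF⟩) f‖ ≤ δ * (2 * ‖f‖) := by
              intro δ hδ
              set η := min (δ ^ 2) (((l : ℝ) - υ) / 2) with hη
              have hη0 : 0 < η := lt_min (by positivity) (by linarith)
              obtain ⟨_, ⟨j, hj, rfl⟩, hj2⟩ := exists_lt_of_csInf_lt hne
                (show υ < υ + η by linarith)
              have hj3 : (j : ℝ) < υ + η := hj2
              have hυj : υ ≤ (j : ℝ) := csInf_le hbdd ⟨j, hj, rfl⟩
              obtain ⟨l', hl'D, hl'2⟩ := hd l l.2 η hη0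
              have hη1 : η ≤ δ ^ 2 := min_le_left _ _
              have hη2 : η ≤ ((l : ℝ) - υ) / 2 := min_le_right _ _
              have h5 := abs_lt.1 hl'2
              have h6 : inner ℂ (a ⟨l', hDF hl'D⟩ - a ⟨j, hDF j.2⟩) f = 0 :=
                hf j hj ⟨l', hl'D⟩ (show (j : ℝ) ≤ l' by linarith)
              have n1 : ‖a l - a ⟨l', hDF hl'D⟩‖ < δ := by
                apply closeness hG hδ
                show |(l : ℝ) - l'| < δ ^ 2
                rw [abs_sub_comm]; linarith
              have n2 : ‖a ⟨j, hDF j.2⟩ - a ⟨υ, hυF⟩‖ < δ := by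
                apply closeness hG hδ
                show |(j : ℝ) - υ| < δ ^ 2
                rw [abs_of_nonneg (by linarith)]; linarith
              have e3 : a l - a ⟨υ, hυF⟩ = (a l - a ⟨l', hDF hl'D⟩) +
                  (a ⟨l', hDF hl'D⟩ - a ⟨j, hDF j.2⟩) + (a ⟨j, hDF j.2⟩ - a ⟨υ, hυF⟩) := by
                abel
              rw [e3, inner_add_left, inner_add_left, h6, add_zero]
              calc ‖inner ℂ (a l - a ⟨l', hDF hl'D⟩) f + inner ℂ (a ⟨j, hDF j.2⟩ - a ⟨υ, hυF⟩) f‖
                  ≤ ‖inner ℂ (a l - a ⟨l', hDF hl'D⟩) f‖ +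
                    ‖inner ℂ (a ⟨j, hDF j.2⟩ - a ⟨υ, hυF⟩) f‖ := norm_add_le _ _
                _ ≤ ‖a l - a ⟨l', hDF hl'D⟩‖ * ‖f‖ + ‖a ⟨j, hDF j.2⟩ - a ⟨υ, hυF⟩‖ * ‖f‖ :=
                    add_le_add (norm_inner_le_norm _ _) (norm_inner_le_norm _ _)
                _ ≤ δ * ‖f‖ + δ * ‖f‖ := by
                    gcongr
                _ = δ * (2 * ‖f‖) := by ring
            by_contra hne0
            have hpos : 0 < ‖inner ℂ (a l - a ⟨υ, hυF⟩) f‖ := norm_pos_iff.2 hne0
            set X := ‖inner ℂ (a l - a ⟨υ, hυF⟩) f‖ with hX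
            have h7 := key (X / (2 * (2 * ‖f‖ + 1))) (by positivity)
            have h8 : X / (2 * (2 * ‖f‖ + 1)) * (2 * ‖f‖) < X := by
              rw [div_mul_eq_mul_div, div_lt_iff₀ (by positivity)]
              have := norm_nonneg f
              nlinarith
            linarith
  exact ⟨H, i1, i2, i3, i4, T, ⟨(StrictMono.orderIsoOfSurjective φ hφm hφs).symm⟩⟩

end H94N
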