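import Pool.Agent.H94R6.Spec

set_option autoImplicit false
open scoped Topology
open Filter Metric

namespace H94N
namespace DP1

section
variable {H : Type} [NormedAddCommGroup H] [InnerProductSpace ℂ H] [CompleteSpace H]

/-- the `n`-th term of the separating functional -/
noncomputable def ph (v : ℕ → H) (M : Submodule ℂ H) (n : ℕ) : ℝ :=
  (1/2:ℝ)^n * (infDist (v n) (M : Set H) / (1 + ‖v n‖))

/-- the separating functional -/
noncomputable def phi (v : ℕ → H) (M : Submodule ℂ H) : ℝ := ∑' n, ph v M n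

omit [CompleteSpace H] in
lemma infDist_le_norm (M : Submodule ℂ H) (x : H) : infDist x (M : Set H) ≤ ‖x‖ := by
  have := infDist_le_dist_of_mem (x := x) (s := (M : Set H)) M.zero_mem
  simpa using this

omit [CompleteSpace H] in
lemma ph_nonneg (v : ℕ → H) (M : Submodule ℂ H) (n : ℕ) : 0 ≤ ph v M n := by
  unfold ph
  have := infDist_nonneg (x := v n) (s := (M : Set H))
  positivity

omit [CompleteSpace H] in
lemma ph_le (v : ℕ → H) (M : Submodule ℂ H) (n : ℕ) : ph v M n ≤ (1/2:ℝ)^n := by
  unfold ph
  have : infDist (v n) (M : Set H) / (1+‖v n‖) ≤ 1 := by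
    rw [div_le_one (by positivity)]
    linarith [infDist_le_norm M (v n)]
  exact mul_le_of_le_one_right (by positivity) this

omit [CompleteSpace H] in
lemma ph_summable (v : ℕ → H) (M : Submodule ℂ H) : Summable (ph v M) :=
  Summable.of_nonneg_of_le (ph_nonneg v M) (ph_le v M) summable_geometric_two

omit [CompleteSpace H] in
lemma phi_nonneg (v : ℕ → H) (M : Submodule ℂ H) : 0 ≤ phi v M :=
  tsum_nonneg (ph_nonneg v M)

omit [CompleteSpace H] in
lemma phi_le (v : ℕ → H) (M : Submodule ℂ H) : phi v M ≤ 2 := by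
  have := (ph_summable v M).tsum_le_tsum (ph_le v M) summable_geometric_two
  rw [tsum_geometric_two] at this
  exact this

omit [CompleteSpace H] in
lemma ph_anti (v : ℕ → H) {M M' : Submodule ℂ H} (h : M ≤ M') (n : ℕ) : ph v M' n ≤ ph v M n := by
  unfold ph
  have h1 : infDist (v n) (M' : Set H) ≤ infDist (v n) (M : Set H) :=
    infDist_le_infDist_of_subset h ⟨0, M.zero_mem⟩
  gcongr

omit [CompleteSpace H] in
lemma phi_anti (v : ℕ → H) {M M' : Submodule ℂ H} (h : M ≤ M') : phi v M' ≤ phi v M :=
  (ph_summable v M').tsum_le_tsum (ph_anti v h) (ph_summable v M)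

omit [CompleteSpace H] in
lemma phi_strict (v : ℕ → H) (hv : DenseRange v) {M M' : Submodule ℂ H}
    (hM : IsClosed (M:Set H)) (h : M < M') : phi v M' < phi v M := by
  obtain ⟨y, hy', hy⟩ := SetLike.exists_of_lt h
  have hd : 0 < infDist y (M : Set H) := (hM.notMem_iff_infDist_pos ⟨0, M.zero_mem⟩).1 hy
  obtain ⟨n, hn⟩ := hv.exists_dist_lt y (half_pos hd)
  refine (ph_summable v M').tsum_lt_tsum (i := n) (ph_anti v h.le) ?_ (ph_summable v M)
  unfold ph
  have h1 : infDist (v n) (M' : Set H) ≤ dist (v n) y := infDist_le_dist_of_mem hy'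
  have h2 : infDist y (M : Set H) ≤ infDist (v n) (M : Set H) + dist y (v n) :=
    infDist_le_infDist_add_dist
  rw [dist_comm] at h1
  have h3 : infDist (v n) (M' : Set H) < infDist (v n) (M : Set H) := by linarith
  gcongr

omit [CompleteSpace H] in
lemma infDist_eq (K : Submodule ℂ H) [K.HasOrthogonalProjection] (x : H) :
    infDist x (K : Set H) = ‖x - K.starProjection x‖ := by
  rw [Submodule.starProjection_minimal, infDist_eq_iInf]
  simp [dist_eq_norm]

omit [CompleteSpace H] in
lemma phi_tendsto {ι : Type} (v : ℕ → H) (F : Filter ι) (U : ι → Submodule ℂ H) (K : Submodule ℂ H)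
    (h : ∀ x, Tendsto (fun i => infDist x (U i : Set H)) F (𝓝 (infDist x (K : Set H)))) :
    Tendsto (fun i => phi v (U i)) F (𝓝 (phi v K)) := by
  refine tendsto_tsum_of_dominated_convergence (bound := fun n : ℕ => (1/2:ℝ)^n)
    summable_geometric_two (fun n => ?_) ?_
  · exact ((h (v n)).div_const _).const_mul _
  · refine Eventually.of_forall fun i n => ?_
    rw [Real.norm_eq_abs, abs_of_nonneg (ph_nonneg v _ n)]
    exact ph_le v _ n

lemma sup_tendsto {ι : Type} [Preorder ι] (U : ι → Submodule ℂ H) (hU : Monotone U)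
    (hc : ∀ i, IsClosed (U i : Set H)) (x : H) :
    Tendsto (fun i => infDist x (U i : Set H)) atTop
      (𝓝 (infDist x ((⨆ i, U i).topologicalClosure : Set H))) := by
  haveI : ∀ i, CompleteSpace (U i) := fun i => (hc i).completeSpace_coe
  have h := Submodule.starProjection_tendsto_closure_iSup U hU x
  have h2 : Tendsto (fun i => ‖x - (U i).starProjection x‖) atTop
      (𝓝 ‖x - (⨆ i, U i).topologicalClosure.starProjection x‖) := (h.const_sub x).norm
  rw [infDist_eq]
  refine h2.congr fun i => ?_
  rw [infDist_eq]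

lemma inf_tendsto {ι : Type} [Preorder ι] (U : ι → Submodule ℂ H) (hU : Antitone U)
    (hc : ∀ i, IsClosed (U i : Set H)) (x : H) :
    Tendsto (fun i => infDist x (U i : Set H)) atTop
      (𝓝 (infDist x ((⨅ i, U i : Submodule ℂ H) : Set H))) := by
  haveI : ∀ i, CompleteSpace (U i) := fun i => (hc i).completeSpace_coe
  have hcl : IsClosed ((⨅ i, U i : Submodule ℂ H) : Set H) := by
    rw [Submodule.coe_iInf]
    exact isClosed_iInter hc
  haveI : CompleteSpace (⨅ i, U i : Submodule ℂ H) := hcl.completeSpace_coe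
  have h := Submodule.starProjection_tendsto_closure_iSup (fun i => (U i)ᗮ)
    (fun i j hij => Submodule.orthogonal_le (hU hij)) x
  have he : (⨆ i, (U i)ᗮ).topologicalClosure = (⨅ i, U i)ᗮ := by
    rw [← Submodule.orthogonal_orthogonal_eq_closure, ← Submodule.iInf_orthogonal]
    simp only [Submodule.orthogonal_orthogonal]
  have h2 := h.norm
  rw [infDist_eq]
  have h3 : ‖(⨆ i, (U i)ᗮ).topologicalClosure.starProjection x‖ =
      ‖x - (⨅ i, U i).starProjection x‖ := by
    simp only [he]
    rw [Submodule.starProjection_orthogonal_val]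
  rw [h3] at h2
  refine h2.congr fun i => ?_
  rw [infDist_eq, Submodule.starProjection_orthogonal_val]

/-- sup of a family of closed invariant subspaces -/
lemma sup_inv {ι : Type} (T : H →L[ℂ] H) (U : ι → Submodule ℂ H)
    (hi : ∀ i, ∀ x ∈ U i, T x ∈ U i) : ∀ x ∈ (⨆ i, U i).topologicalClosure,
      T x ∈ (⨆ i, U i).topologicalClosure := by
  have h1 : (⨆ i, U i) ≤ ((⨆ i, U i).topologicalClosure).comap (T : H →ₗ[ℂ] H) := by
    refine iSup_le fun i x hx => ?_
    exact Submodule.le_topologicalClosure _ (Submodule.mem_iSup_of_mem i (hi i x hx))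
  have h2 : IsClosed ((((⨆ i, U i).topologicalClosure).comap (T : H →ₗ[ℂ] H) :
      Submodule ℂ H) : Set H) := by
    have : ((((⨆ i, U i).topologicalClosure).comap (T : H →ₗ[ℂ] H) : Submodule ℂ H) : Set H) =
        T ⁻¹' ((⨆ i, U i).topologicalClosure : Set H) := rfl
    rw [this]
    exact (Submodule.isClosed_topologicalClosure _).preimage T.continuous
  intro x hx
  exact Submodule.topologicalClosure_minimal _ h1 h2 hx

end

end DP1

open DP1 in
theorem P1 : S_P1 := by
  unfold S_P1
  intro L _ hL
  obtain ⟨H, i1, i2, i3, i4, i5, T, ⟨e⟩⟩ := hL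
  let v : ℕ → H := TopologicalSpace.denseSeq H
  have hv : DenseRange v := TopologicalSpace.denseRange_denseSeq H
  let M : L → Submodule ℂ H := fun l => (e l).1
  have hMc : ∀ l, IsClosed (M l : Set H) := fun l => (e l).2.1
  have hMi : ∀ l, ∀ x ∈ M l, T x ∈ M l := fun l => (e l).2.2
  have hMmono : Monotone M := fun l l' h => e.monotone h
  have hMs : StrictMono M := by
    intro l l' h
    have h1 : e l < e l' := e.strictMono h
    exact h1
  have hsurj : ∀ K : Submodule ℂ H, IsClosed (K : Set H) → (∀ x ∈ K, T x ∈ K) →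
      ∃ l, M l = K := by
    intro K h1 h2
    refine ⟨e.symm ⟨K, h1, h2⟩, ?_⟩
    simp [M]
  let f : L → ℝ := fun l => - phi v (M l)
  have hf : StrictMono f := by
    intro l l' h
    exact neg_lt_neg (phi_strict v hv (hMc l) (hMs h))
  have hfm : ∀ l l', M l ≤ M l' → f l ≤ f l' := fun l l' h => neg_le_neg (phi_anti v h)
  have hLne : Nonempty L := by
    obtain ⟨l, _⟩ := hsurj ⊥ (by simp) (by
      intro x hx
      rw [Submodule.mem_bot] at hx ⊢
      rw [hx, map_zero])
    exact ⟨l⟩
  refine ⟨Set.range f, ?_, Set.range_nonempty f, ⟨hf.orderIso f⟩⟩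
  have hbd : Bornology.IsBounded (Set.range f) := by
    refine (Metric.isBounded_Icc (-2:ℝ) 0).subset ?_
    rintro _ ⟨l, rfl⟩
    have h1 := phi_le v (M l)
    have h2 := phi_nonneg v (M l)
    constructor
    · change -2 ≤ - phi v (M l)
      linarith
    · change - phi v (M l) ≤ 0
      linarith
  refine Metric.isCompact_of_isClosed_isBounded ?_ hbd
  refine isClosed_of_closure_subset fun x hx => ?_
  by_contra hxr
  have hne : ∀ l, f l ≠ x := fun l h => hxr ⟨l, h⟩
  -- a gap below `x`
  have hA : ∃ δ > 0, ∀ l, f l < x → f l ≤ x - δ := by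
    by_cases hA : ∃ l, f l < x
    · obtain ⟨la, hla⟩ := hA
      let A : Set L := {l | f l < x}
      haveI : Nonempty A := ⟨⟨la, hla⟩⟩
      let U : A → Submodule ℂ H := fun a => M a.1
      have hU : Monotone U := fun a b h => hMmono h
      obtain ⟨l0, hl0⟩ := hsurj (⨆ i, U i).topologicalClosure
        (Submodule.isClosed_topologicalClosure _) (sup_inv T U (fun i => hMi i.1))
      have ht : Tendsto (fun i => f (i : A).1) atTop (𝓝 (f l0)) := by
        have := (phi_tendsto v atTop U _ (sup_tendsto U hU (fun i => hMc i.1))).neg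
        rw [← hl0] at this
        exact this
      have hle : f l0 ≤ x := le_of_tendsto' ht (fun i => (i.2 : f i.1 < x).le)
      have hlt : f l0 < x := lt_of_le_of_ne hle (hne l0)
      refine ⟨x - f l0, sub_pos.2 hlt, fun l hl => ?_⟩
      have : M l ≤ M l0 := by
        rw [hl0]
        exact (le_iSup U ⟨l, hl⟩).trans (Submodule.le_topologicalClosure _)
      have := hfm _ _ this
      linarith
    · push Not at hA
      exact ⟨1, one_pos, fun l hl => absurd hl (not_lt.2 (hA l))⟩
  have hB : ∃ δ > 0, ∀ l, x < f l → x + δ ≤ f l := by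
    by_cases hB : ∃ l, x < f l
    · obtain ⟨lb, hlb⟩ := hB
      let B : Set L := {l | x < f l}
      haveI : Nonempty Bᵒᵈ := ⟨OrderDual.toDual ⟨lb, hlb⟩⟩
      let U : Bᵒᵈ → Submodule ℂ H := fun a => M (OrderDual.ofDual a).1
      have hU : Antitone U := fun a b h => hMmono h
      have hcl : IsClosed ((⨅ i, U i : Submodule ℂ H) : Set H) := by
        rw [Submodule.coe_iInf]
        exact isClosed_iInter (fun i => hMc _)
      obtain ⟨l0, hl0⟩ := hsurj (⨅ i, U i) hcl (by
        intro y hy
        rw [Submodule.mem_iInf] at hy ⊢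
        exact fun i => hMi _ _ (hy i))
      have ht : Tendsto (fun i : Bᵒᵈ => f (OrderDual.ofDual i).1) atTop (𝓝 (f l0)) := by
        have := (phi_tendsto v atTop U _ (inf_tendsto U hU (fun i => hMc _))).neg
        rw [← hl0] at this
        exact this
      have hle : x ≤ f l0 := ge_of_tendsto' ht
        (fun i => ((OrderDual.ofDual i).2 : x < f (OrderDual.ofDual i).1).le)
      have hlt : x < f l0 := lt_of_le_of_ne hle (fun h => hne l0 h.symm)
      refine ⟨f l0 - x, sub_pos.2 hlt, fun l hl => ?_⟩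
      have : M l0 ≤ M l := by
        rw [hl0]
        exact iInf_le U (OrderDual.toDual ⟨l, hl⟩)
      have := hfm _ _ this
      linarith
    · push Not at hB
      exact ⟨1, one_pos, fun l hl => absurd hl (not_lt.2 (hB l))⟩
  obtain ⟨δ, hδ, hA⟩ := hA
  obtain ⟨δ', hδ', hB⟩ := hB
  obtain ⟨_, ⟨l, rfl⟩, hl⟩ := Metric.mem_closure_iff.1 hx (min δ δ') (lt_min hδ hδ')
  rw [Real.dist_eq] at hl
  rcases lt_trichotomy (f l) x with h | h | h
  · have h1 := hA l h
    have h2 : |x - f l| < δ := lt_of_lt_of_le hl (min_le_left _ _)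
    rw [abs_of_pos (sub_pos.2 h)] at h2
    linarith
  · exact hne l h
  · have h1 := hB l h
    have h2 : |x - f l| < δ' := lt_of_lt_of_le hl (min_le_right _ _)
    rw [abs_of_neg (sub_neg.2 h)] at h2
    linarith

end H94N
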