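import Pool.Agent.H94R6.Spec

set_option autoImplicit false
open scoped Topology ENNReal
open Filter

noncomputable section
namespace H94N

namespace P2h

variable {L : Type} [LinearOrder L] {F : Set ℝ}

/-- the map `WithTop L → F ∪ {c}` -/
def f (c : ℝ) (e : L ≃o F) : WithTop L → (insert c F : Set ℝ)
  | ⊤ => ⟨c, Set.mem_insert _ _⟩
  | (x : L) => ⟨(e x : ℝ), Set.mem_insert_of_mem _ (e x).2⟩

theorem f_top (c : ℝ) (e : L ≃o F) : ((f c e ⊤ : (insert c F : Set ℝ)) : ℝ) = c := rfl

theorem f_coe (c : ℝ) (e : L ≃o F) (x : L) :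
    ((f c e (x : WithTop L) : (insert c F : Set ℝ)) : ℝ) = (e x : ℝ) := rfl

theorem f_mono (c : ℝ) (e : L ≃o F) (hc : ∀ t ∈ F, t < c) : StrictMono (f c e) := by
  intro a b hab
  rw [← Subtype.coe_lt_coe]
  induction b using WithTop.recTopCoe with
  | top =>
    induction a using WithTop.recTopCoe with
    | top => exact absurd hab (lt_irrefl _)
    | coe x =>
      rw [f_top, f_coe]
      exact hc _ (e x).2
  | coe y =>
    induction a using WithTop.recTopCoe with
    | top => exact absurd hab (by simp)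
    | coe x =>
      rw [f_coe, f_coe]
      have : x < y := WithTop.coe_lt_coe.1 hab
      exact Subtype.coe_lt_coe.2 (e.strictMono this)

theorem f_surj (c : ℝ) (e : L ≃o F) : Function.Surjective (f c e) := by
  rintro ⟨z, hz⟩
  rcases hz with rfl | hz
  · exact ⟨⊤, rfl⟩
  · refine ⟨((e.symm ⟨z, hz⟩ : L) : WithTop L), ?_⟩
    apply Subtype.ext
    rw [f_coe, OrderIso.apply_symm_apply]

end P2h

theorem P2 (hP1 : S_P1) (hORD : S_ORD) : S_P2 := by
  intro L _ hL
  obtain ⟨F, hF, hne, ⟨e⟩⟩ := hP1 L hL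
  have hlt : ∀ t ∈ F, t < sSup F + 1 := by
    intro t ht
    have := le_csSup hF.bddAbove ht
    linarith
  have hF' : IsCompact (insert (sSup F + 1) F) := hF.insert _
  obtain ⟨H, i1, i2, i3, i4, T, ⟨g⟩⟩ := hORD (insert (sSup F + 1) F) hF' (Set.insert_nonempty _ _)
  have hiso : WithTop L ≃o (insert (sSup F + 1) F : Set ℝ) :=
    StrictMono.orderIsoOfSurjective (P2h.f (sSup F + 1) e) (P2h.f_mono _ e hlt)
      (P2h.f_surj _ e)
  have hnt : Nontrivial H := by
    by_contra hcon
    rw [not_nontrivial_iff_subsingleton] at hcon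
    have hsub : Subsingleton (Submodule ℂ H) := inferInstance
    obtain ⟨t, ht⟩ := hne
    have h1 : g.symm ⟨t, Set.mem_insert_of_mem _ ht⟩ = g.symm ⟨sSup F + 1, Set.mem_insert _ _⟩ :=
      Subtype.ext (Subsingleton.elim _ _)
    have h2 := g.symm.injective h1
    have h3 : t = sSup F + 1 := congrArg Subtype.val h2
    have := hlt t ht
    linarith
  exact ⟨H, i1, i2, i3, i4, hnt, T, ⟨hiso.trans g.symm⟩⟩

end H94N
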