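import Pool.Agent.H94R6.Spec

set_option autoImplicit false
open scoped Topology ENNReal
open Filter

noncomputable section
namespace H94N

namespace Q1x

/-- the weights -/
def cc (q : ℚ) : ℝ := (1 / 2 : ℝ) ^ Encodable.encode q

theorem cc_pos (q : ℚ) : 0 < cc q := by
  unfold cc
  positivity

theorem cc_le (q : ℚ) : cc q ≤ 1 := by
  unfold cc
  exact pow_le_one₀ (by norm_num) (by norm_num)

theorem cc_sum : Summable cc := summable_geometric_two_encode

/-- the support condition -/
def P (x : ℚ × Bool) (q : ℚ) : Prop := q < x.1 ∨ (x.2 = true ∧ q = x.1)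

open Classical in
def fn (x : ℚ × Bool) (q : ℚ) : ℂ := if P x q then (cc q : ℂ) else 0

theorem fn_mem (x : ℚ × Bool) : Memℓp (fn x) 2 := by
  apply memℓp_gen
  refine Summable.of_nonneg_of_le (fun q => by positivity) (fun q => ?_) cc_sum
  have h1 : ‖fn x q‖ ≤ cc q := by
    unfold fn
    split_ifs
    · rw [Complex.norm_real, Real.norm_of_nonneg (cc_pos q).le]
    · rw [norm_zero]
      exact (cc_pos q).le
  have h2 : (2 : ℝ≥0∞).toReal = ((2 : ℕ) : ℝ) := by norm_num
  rw [h2, Real.rpow_natCast]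
  calc ‖fn x q‖ ^ 2 ≤ cc q ^ 2 := pow_le_pow_left₀ (norm_nonneg _) h1 2
    _ = cc q * cc q := sq _
    _ ≤ 1 * cc q := mul_le_mul_of_nonneg_right (cc_le q) (cc_pos q).le
    _ = cc q := one_mul _

def vec (x : ℚ × Bool) : lp (fun _ : ℚ => ℂ) 2 := ⟨fn x, fn_mem x⟩

def aa : J → lp (fun _ : ℚ => ℂ) 2
  | ⊥ => 0
  | ((x : ℚ ×ₗ Bool) : WithBot (ℚ ×ₗ Bool)) => vec (ofLex x)

theorem aa_coe (x : ℚ ×ₗ Bool) : aa ((x : ℚ ×ₗ Bool) : J) = vec (ofLex x) := rfl

theorem aa_bot : aa (⊥ : J) = 0 := rfl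

theorem P_mono {x y : ℚ ×ₗ Bool} (h : x ≤ y) {q : ℚ} (hq : P (ofLex x) q) : P (ofLex y) q := by
  rw [Prod.Lex.le_iff] at h
  unfold P at hq ⊢
  rcases h with h | ⟨h1, h2⟩
  · left
    rcases hq with h3 | h3
    · exact h3.trans h
    · rw [h3.2]
      exact h
  · rcases hq with h3 | h3
    · left
      rw [← h1]
      exact h3
    · right
      refine ⟨?_, ?_⟩
      · rw [h3.1] at h2
        exact top_le_iff.mp h2
      · rw [← h1]
        exact h3.2

theorem vec_apply (x : ℚ × Bool) (q : ℚ) : (vec x) q = fn x q := rfl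

theorem inner_self_eq (x y : ℚ ×ₗ Bool) (h : x ≤ y) :
    inner ℂ (vec (ofLex x)) (vec (ofLex y)) = inner ℂ (vec (ofLex x)) (vec (ofLex x)) := by
  rw [lp.inner_eq_tsum, lp.inner_eq_tsum]
  congr 1
  funext q
  rw [vec_apply, vec_apply]
  unfold fn
  by_cases h1 : P (ofLex x) q
  · rw [if_pos h1, if_pos (P_mono h h1)]
  · rw [if_neg h1, inner_zero_left, inner_zero_left]

theorem vec_ne_zero (x : ℚ × Bool) : vec x ≠ 0 := by
  intro h
  have h1 : (vec x) (x.1 - 1) = 0 := by
    rw [h]
    rfl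
  rw [vec_apply] at h1
  unfold fn at h1
  have hP : P x (x.1 - 1) := Or.inl (by linarith)
  rw [if_pos hP] at h1
  have := cc_pos (x.1 - 1)
  exact this.ne' (Complex.ofReal_eq_zero.mp h1)

/-- if `x < y` there is a rational in the difference of the supports -/
theorem exists_diff {x y : ℚ ×ₗ Bool} (h : x < y) : ∃ q, P (ofLex y) q ∧ ¬ P (ofLex x) q := by
  rw [Prod.Lex.lt_iff] at h
  unfold P
  rcases h with h | ⟨h1, h2⟩
  · obtain ⟨q, hq1, hq2⟩ := exists_between h
    refine ⟨q, Or.inl hq2, ?_⟩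
    rintro (h3 | h3)
    · exact absurd (h3.trans hq1) (lt_irrefl _)
    · rw [h3.2] at hq1
      exact lt_irrefl _ hq1
  · have hx : (ofLex x).2 = false := by
      rcases hb : (ofLex x).2 with _ | _
      · rfl
      · rw [hb] at h2
        exact absurd h2 (not_lt.mpr le_top)
    have hy : (ofLex y).2 = true := by
      rcases hb : (ofLex y).2 with _ | _
      · rw [hb] at h2
        exact absurd h2 not_lt_bot
      · rfl
    refine ⟨(ofLex y).1, Or.inr ⟨hy, rfl⟩, ?_⟩
    rintro (h3 | h3)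
    · rw [← h1] at h3
      exact lt_irrefl _ h3
    · rw [hx] at h3
      exact absurd h3.1 (by decide)

theorem vec_ne {x y : ℚ ×ₗ Bool} (h : x < y) : vec (ofLex x) ≠ vec (ofLex y) := by
  obtain ⟨q, h1, h2⟩ := exists_diff h
  intro he
  have h3 : (vec (ofLex x)) q = (vec (ofLex y)) q := by rw [he]
  rw [vec_apply, vec_apply] at h3
  unfold fn at h3
  rw [if_pos h1, if_neg h2] at h3
  exact (cc_pos q).ne' (Complex.ofReal_eq_zero.mp h3.symm)

theorem inj_aa : Function.Injective aa := by
  intro x y h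
  induction x using WithBot.recBotCoe with
  | bot =>
    induction y using WithBot.recBotCoe with
    | bot => rfl
    | coe y =>
      rw [aa_bot, aa_coe] at h
      exact absurd h.symm (vec_ne_zero _)
  | coe x =>
    induction y using WithBot.recBotCoe with
    | bot =>
      rw [aa_bot, aa_coe] at h
      exact absurd h (vec_ne_zero _)
    | coe y =>
      rw [aa_coe, aa_coe] at h
      rcases lt_trichotomy x y with h1 | h1 | h1
      · exact absurd h (vec_ne h1)
      · rw [h1]
      · exact absurd h.symm (vec_ne h1)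

theorem single_eq (r : ℚ) : (lp.single (E := fun _ : ℚ => ℂ) 2 r ((cc r : ℝ) : ℂ)) =
    aa ((toLex (r, true) : ℚ ×ₗ Bool) : J) - aa ((toLex (r, false) : ℚ ×ₗ Bool) : J) := by
  rw [aa_coe, aa_coe]
  ext q
  rw [lp.coeFn_sub, Pi.sub_apply, vec_apply, vec_apply, lp.single_apply]
  unfold fn P
  simp only [ofLex_toLex, true_and, Bool.false_eq_true, false_and, or_false]
  by_cases h1 : q = r
  · subst h1
    simp
  · rw [Pi.single_eq_of_ne h1]
    by_cases h2 : q < r
    · rw [if_pos (Or.inl h2), if_pos h2, sub_self]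
    · rw [if_neg (by rintro (h3 | h3); exacts [h2 h3, h1 h3]), if_neg h2, sub_zero]

theorem dense_aa : (Submodule.span ℂ (Set.range aa)).topologicalClosure = ⊤ := by
  rw [eq_top_iff]
  intro f _
  have hs := lp.hasSum_single (p := 2) (by norm_num) f
  refine mem_closure_of_tendsto hs (Filter.Eventually.of_forall fun s => ?_)
  refine Submodule.sum_mem _ fun r _ => ?_
  have h1 : lp.single (E := fun _ : ℚ => ℂ) 2 r (f r) =
      (f r / (cc r : ℂ)) • (lp.single (E := fun _ : ℚ => ℂ) 2 r ((cc r : ℝ) : ℂ)) := by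
    rw [← lp.single_smul]
    congr 1
    rw [smul_eq_mul, div_mul_cancel₀]
    exact Complex.ofReal_ne_zero.mpr (cc_pos r).ne'
  rw [h1, single_eq]
  exact Submodule.smul_mem _ _ (Submodule.sub_mem _ (Submodule.subset_span ⟨_, rfl⟩)
    (Submodule.subset_span ⟨_, rfl⟩))

end Q1x

open Q1x in
theorem Q1 : S_Q1 := by
  refine ⟨cc, aa, cc_pos, ⟨aa_bot, inj_aa, ?_, dense_aa⟩, ?_⟩
  · intro i j hij
    induction i using WithBot.recBotCoe with
    | bot =>
      rw [aa_bot, inner_zero_left]
      simp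
    | coe x =>
      induction j using WithBot.recBotCoe with
      | bot => exact absurd hij (WithBot.not_coe_le_bot x)
      | coe y =>
        rw [WithBot.coe_le_coe] at hij
        rw [aa_coe, aa_coe, inner_self_eq x y hij, inner_self_eq_norm_sq_to_K]
        push_cast
        rfl
  · intro r b q
    rw [aa_coe, vec_apply]
    unfold fn P
    simp only [ofLex_toLex]
    by_cases h : q < r ∨ (b = true ∧ q = r)
    · rw [if_pos h, if_pos h]
    · rw [if_neg h, if_neg h]

end H94N
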