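import Pool.Agent.H94R6.Spec

set_option autoImplicit false
open scoped Topology ENNReal
open Filter

noncomputable section
namespace H94N

abbrev q2E : Type := lp (fun _ : ℚ => ℂ) 2

/-- functions supported on `S` -/
def q2Supp (S : Set ℚ) : Submodule ℂ q2E where
  carrier := {f | ∀ q, q ∉ S → f q = 0}
  add_mem' := by
    intro f g hf hg q hq
    rw [lp.coeFn_add, Pi.add_apply, hf q hq, hg q hq, add_zero]
  zero_mem' := by intro q _; rfl
  smul_mem' := by
    intro c f hf q hq
    rw [lp.coeFn_smul, Pi.smul_apply, hf q hq, smul_zero]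

theorem q2_mem (S : Set ℚ) (f : q2E) : f ∈ q2Supp S ↔ ∀ q, q ∉ S → f q = 0 := Iff.rfl

theorem q2_cont (q : ℚ) : Continuous fun f : q2E => f q :=
  (continuous_apply q).comp (lp.uniformContinuous_coe (p := 2) (E := fun _ : ℚ => ℂ)).continuous

theorem q2_closed (S : Set ℚ) : IsClosed (q2Supp S : Set q2E) := by
  have : (q2Supp S : Set q2E) = ⋂ q : ℚ, ⋂ _ : q ∉ S, (fun f : q2E => f q) ⁻¹' {0} := by
    ext f
    simp [q2_mem]
  rw [this]
  exact isClosed_iInter fun q => isClosed_iInter fun _ => isClosed_singleton.preimage (q2_cont q)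

/-- every function supported on `S` is in each closed subspace containing the `δ_q` -/
theorem q2_supp_le (S : Set ℚ) (W : Submodule ℂ q2E) (hW : IsClosed (W : Set q2E))
    (h : ∀ q ∈ S, lp.single 2 q (1 : ℂ) ∈ W) : q2Supp S ≤ W := by
  intro f hf
  have hs := lp.hasSum_single (E := fun _ : ℚ => ℂ) (p := 2) (by norm_num) f
  refine hW.mem_of_tendsto hs (Filter.Eventually.of_forall fun s => ?_)
  refine W.sum_mem fun q _ => ?_
  by_cases hq : q ∈ S
  · have : lp.single 2 q (f q) = (f q) • (lp.single 2 q (1 : ℂ) : q2E) := by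
      rw [← lp.single_smul, smul_eq_mul, mul_one]
    rw [this]
    exact W.smul_mem _ (h q hq)
  · rw [hf q hq, lp.single_zero]
    exact W.zero_mem

/-- the index `(r, b)` -/
def q2j (r : ℚ) (b : Bool) : J := ((toLex (r, b) : ℚ ×ₗ Bool) : J)

theorem q2j_lt_ft (r : ℚ) : q2j r false < q2j r true := by
  unfold q2j
  rw [WithBot.coe_lt_coe, Prod.Lex.toLex_lt_toLex]
  right
  exact ⟨rfl, Bool.false_lt_true⟩

theorem q2j_lt_of_lt {r s : ℚ} (h : r < s) (b c : Bool) : q2j r b < q2j s c := by
  unfold q2j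
  rw [WithBot.coe_lt_coe, Prod.Lex.toLex_lt_toLex]
  left
  exact h

theorem q2j_le {r s : ℚ} {b c : Bool} (h : q2j r b ≤ q2j s c) : r ≤ s := by
  by_contra hn
  push Not at hn
  exact absurd h (not_le.2 (q2j_lt_of_lt hn c b))

theorem q2j_cases (j : J) : j = ⊥ ∨ ∃ r b, j = q2j r b := by
  induction j using WithBot.recBotCoe with
  | bot => exact Or.inl rfl
  | coe x => exact Or.inr ⟨(ofLex x).1, (ofLex x).2, rfl⟩

section
variable {cc : ℚ → ℝ} {a : J → q2E}

theorem q2_diff (ha : ∀ (r : ℚ) (b : Bool) (q : ℚ), (a (q2j r b)) q =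
    if q < r ∨ (b = true ∧ q = r) then (cc q : ℂ) else 0) (q : ℚ) :
    a (q2j q true) - a (q2j q false) = (cc q : ℂ) • (lp.single 2 q (1 : ℂ) : q2E) := by
  ext x
  rw [lp.coeFn_sub, Pi.sub_apply, ha, ha, lp.coeFn_smul, Pi.smul_apply, lp.single_apply]
  by_cases hx : x = q
  · subst hx
    simp
  · rw [Pi.single_eq_of_ne hx]
    simp [hx]

theorem q2_NL (hc : ∀ q, 0 < cc q) (hCh : Chain a)
    (ha : ∀ (r : ℚ) (b : Bool) (q : ℚ), (a (q2j r b)) q =
    if q < r ∨ (b = true ∧ q = r) then (cc q : ℂ) else 0) (L : Set J) (hL : IsLowerSet L) :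
    NL a L = q2Supp {q | q2j q true ∈ L} := by
  apply le_antisymm
  · unfold NL
    refine Submodule.topologicalClosure_minimal _ ?_ (q2_closed _)
    rw [Submodule.span_le]
    rintro _ ⟨j, hj, rfl⟩
    rcases q2j_cases j with rfl | ⟨r, b, rfl⟩
    · rw [hCh.bot]
      exact Submodule.zero_mem _
    · intro q hq
      rw [ha]
      rw [if_neg]
      rintro (h | ⟨rfl, rfl⟩)
      · exact hq (hL (q2j_lt_of_lt h true b).le hj)
      · exact hq hj
  · refine q2_supp_le _ _ (Submodule.isClosed_topologicalClosure _) ?_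
    intro q hq
    have h1 : a (q2j q true) ∈ NL a L :=
      Submodule.le_topologicalClosure _ (Submodule.subset_span ⟨_, hq, rfl⟩)
    have h2 : a (q2j q false) ∈ NL a L :=
      Submodule.le_topologicalClosure _
        (Submodule.subset_span ⟨_, hL (q2j_lt_ft q).le hq, rfl⟩)
    have h3 := (NL a L).smul_mem ((cc q : ℂ)⁻¹) ((NL a L).sub_mem h1 h2)
    rw [q2_diff ha, smul_smul, inv_mul_cancel₀, one_smul] at h3
    · exact h3
    · exact_mod_cast (hc q).ne'

theorem q2_NU (hc : ∀ q, 0 < cc q)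
    (ha : ∀ (r : ℚ) (b : Bool) (q : ℚ), (a (q2j r b)) q =
    if q < r ∨ (b = true ∧ q = r) then (cc q : ℂ) else 0) (L : Set J) (hL : IsLowerSet L) :
    NU a L = q2Supp {q | q2j q false ∈ L} := by
  apply le_antisymm
  · intro f hf q hq
    have h := hf (q2j q false) hq (q2j q true) (q2j_lt_ft q).le
    rw [q2_diff ha, inner_smul_left] at h
    rcases mul_eq_zero.1 h with h | h
    · exfalso
      rw [Complex.conj_ofReal] at h
      exact (hc q).ne' (by exact_mod_cast h)
    · rw [lp.inner_single_left] at h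
      simpa using h
  · intro f hf j hj l hl
    rw [lp.inner_eq_tsum]
    refine (tsum_congr fun q => ?_).trans tsum_zero
    by_cases hq : q2j q false ∈ L
    · have key : ∀ i : J, i ∉ L → (a i) q = (cc q : ℂ) := by
        intro i hi
        rcases q2j_cases i with rfl | ⟨r, b, rfl⟩
        · exact absurd (hL bot_le hq) hi
        · rw [ha, if_pos]
          by_contra hcon
          push Not at hcon
          apply hi
          refine hL ?_ hq
          rcases lt_or_eq_of_le hcon.1 with h | h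
          · exact (q2j_lt_of_lt h b false).le
          · cases b with
            | false => rw [h]
            | true => exact absurd h.symm (hcon.2 rfl)
      have hl' : l ∉ L := fun h => hj (hL hl h)
      rw [lp.coeFn_sub, Pi.sub_apply, key l hl', key j hj, sub_self, inner_zero_left]
    · rw [hf q hq, inner_zero_right]

end

theorem q2_step (h7 : S_N7) (h1 : S_Q1) : ∃ T : q2E →L[ℂ] q2E, ∀ M : Submodule ℂ q2E,
    (IsClosed (M : Set q2E) ∧ ∀ x ∈ M, T x ∈ M) ↔
      ∃ S : Set ℚ, IsLowerSet S ∧ M = q2Supp S := by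
  obtain ⟨cc, a, hc, hCh, ha⟩ := h1
  have ha' : ∀ (r : ℚ) (b : Bool) (q : ℚ), (a (q2j r b)) q =
    if q < r ∨ (b = true ∧ q = r) then (cc q : ℂ) else 0 := ha
  have : Countable J := inferInstanceAs (Countable (Option (ℚ × Bool)))
  obtain ⟨T, hT⟩ := h7 q2E J a hCh
  refine ⟨T, fun M => ?_⟩
  rw [hT M]
  constructor
  · rintro ⟨L, hL, h | h⟩
    · refine ⟨{q | q2j q true ∈ L}, ?_, h.trans (q2_NL hc hCh ha' L hL)⟩
      intro x y hxy hx
      rcases lt_or_eq_of_le hxy with h' | h'
      · exact hL (q2j_lt_of_lt h' true true).le hx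
      · rw [h']; exact hx
    · refine ⟨{q | q2j q false ∈ L}, ?_, h.trans (q2_NU hc ha' L hL)⟩
      intro x y hxy hx
      rcases lt_or_eq_of_le hxy with h' | h'
      · exact hL (q2j_lt_of_lt h' false false).le hx
      · rw [h']; exact hx
  · rintro ⟨S, hS, rfl⟩
    refine ⟨{j | ∀ r b, j = q2j r b → r ∈ S}, ?_, Or.inl ?_⟩
    · intro x y hxy hx r b hr
      rcases q2j_cases x with h | ⟨s, c, h⟩
      · exfalso
        rw [h, hr] at hxy
        exact absurd hxy (by unfold q2j; simp)
      · rw [h, hr] at hxy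
        exact hS (q2j_le hxy) (hx s c h)
    · rw [q2_NL hc hCh ha']
      · congr 1
        ext q
        constructor
        · intro hq r b h
          have h2 : (toLex (q, true) : ℚ ×ₗ Bool) = toLex (r, b) := WithBot.coe_injective h
          have h3 : ((q, true) : ℚ × Bool) = (r, b) := h2
          have h4 : q = r := congrArg Prod.fst h3
          rw [← h4]; exact hq
        · intro hq
          exact hq q true rfl
      · intro x y hxy hx r b hr
        rcases q2j_cases x with h | ⟨s, c, h⟩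
        · exfalso
          rw [h, hr] at hxy
          exact absurd hxy (by unfold q2j; simp)
        · rw [h, hr] at hxy
          exact hS (q2j_le hxy) (hx s c h)

/-- lower sets of `ℚ` -/
theorem q2_lower (S : Set ℚ) (hS : IsLowerSet S) : S = ∅ ∨ S = Set.univ ∨
    ∃ t : ℝ, (∀ q, q ∉ S ↔ t < (q : ℝ)) ∨ (∀ q, q ∉ S ↔ t ≤ (q : ℝ)) := by
  by_cases h0 : S = ∅
  · exact Or.inl h0
  by_cases h1 : S = Set.univ
  · exact Or.inr (Or.inl h1)
  right; right
  obtain ⟨q0, hq0⟩ := Set.nonempty_iff_ne_empty.2 h0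
  obtain ⟨q1, hq1⟩ := (Set.ne_univ_iff_exists_notMem S).1 h1
  set A : Set ℝ := (fun q : ℚ => (q : ℝ)) '' S with hA
  have hlt : ∀ x ∈ S, ∀ y, y ∉ S → x < y := by
    intro x hx y hy
    by_contra hn
    exact hy (hS (not_lt.1 hn) hx)
  have hne : A.Nonempty := ⟨_, q0, hq0, rfl⟩
  have hbd : BddAbove A := by
    refine ⟨(q1 : ℝ), ?_⟩
    rintro _ ⟨x, hx, rfl⟩
    exact Rat.cast_le.2 (hlt x hx q1 hq1).le
  have hup : ∀ y : ℚ, y ∉ S → sSup A ≤ (y : ℝ) := by
    intro y hy
    refine csSup_le hne ?_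
    rintro _ ⟨x, hx, rfl⟩
    exact Rat.cast_le.2 (hlt x hx y hy).le
  have hlo : ∀ x : ℚ, x ∈ S → (x : ℝ) ≤ sSup A := fun x hx => le_csSup hbd ⟨x, hx, rfl⟩
  refine ⟨sSup A, ?_⟩
  by_cases hmem : ∃ x ∈ S, (x : ℝ) = sSup A
  · left
    obtain ⟨x, hx, hxe⟩ := hmem
    intro q
    constructor
    · intro hq
      rw [← hxe]
      exact_mod_cast hlt x hx q hq
    · intro hq hqS
      exact absurd (hlo q hqS) (not_le.2 hq)
  · right
    intro q
    constructor
    · exact hup q
    · intro hq hqS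
      exact hmem ⟨q, hqS, le_antisymm (hlo q hqS) hq⟩

theorem Q2 (h7 : S_N7) (h1 : S_Q1) : S_Q2 := by
  obtain ⟨T, hT⟩ := q2_step h7 h1
  refine ⟨T, fun M => ?_⟩
  rw [hT M]
  constructor
  · rintro ⟨S, hS, rfl⟩
    rcases q2_lower S hS with h | h | ⟨t, h | h⟩
    · left
      rw [eq_bot_iff]
      intro f hf
      rw [Submodule.mem_bot]
      ext q
      rw [hf q (by rw [h]; exact Set.notMem_empty q)]
      rfl
    · right; left
      rw [eq_top_iff]
      intro f _ q hq
      rw [h] at hq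
      exact absurd (Set.mem_univ q) hq
    · right; right
      refine ⟨t, Or.inl fun f => ?_⟩
      rw [q2_mem]
      exact forall_congr' fun q => by rw [h q]
    · right; right
      refine ⟨t, Or.inr fun f => ?_⟩
      rw [q2_mem]
      exact forall_congr' fun q => by rw [h q]
  · rintro (h | h | ⟨t, h | h⟩)
    · refine ⟨∅, isLowerSet_empty, ?_⟩
      rw [h, eq_comm, eq_bot_iff]
      intro f hf
      rw [Submodule.mem_bot]
      ext q
      rw [hf q (Set.notMem_empty q)]
      rfl
    · refine ⟨Set.univ, isLowerSet_univ, ?_⟩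
      rw [h, eq_comm, eq_top_iff]
      intro f _ q hq
      exact absurd (Set.mem_univ q) hq
    · refine ⟨{q | (q : ℝ) ≤ t}, ?_, ?_⟩
      · intro x y hxy hx
        exact le_trans (Rat.cast_le.2 hxy) (show (x : ℝ) ≤ t from hx)
      · ext f
        rw [h f, q2_mem]
        exact forall_congr' fun q => by simp
    · refine ⟨{q | (q : ℝ) < t}, ?_, ?_⟩
      · intro x y hxy hx
        exact lt_of_le_of_lt (Rat.cast_le.2 hxy) (show (x : ℝ) < t from hx)
      · ext f
        rw [h f, q2_mem]
        exact forall_congr' fun q => by simp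

end H94N
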