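import Mathlib

set_option autoImplicit false
open scoped Topology ENNReal
open Filter

noncomputable section
namespace H94N

/-- `a : ι → H` is a strictly increasing chain of vectors with orthogonal increments, total in `H` -/
structure Chain {H ι : Type} [NormedAddCommGroup H] [InnerProductSpace ℂ H] [CompleteSpace H]
    [LinearOrder ι] [OrderBot ι] (a : ι → H) : Prop where
  bot : a ⊥ = 0
  inj : Function.Injective a
  orth : ∀ i j, i ≤ j → inner ℂ (a i) (a j) = ((‖a i‖ ^ 2 : ℝ) : ℂ)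
  dense : (Submodule.span ℂ (Set.range a)).topologicalClosure = ⊤

section
variable {H ι : Type} [NormedAddCommGroup H] [InnerProductSpace ℂ H] [CompleteSpace H]
  [LinearOrder ι] [OrderBot ι]

/-- the element of the nest with index `i` -/
def N (a : ι → H) (i : ι) : Submodule ℂ H :=
  (Submodule.span ℂ (a '' Set.Iic i)).topologicalClosure

/-- `sup` of the `N i`, `i ∈ L` -/
def NL (a : ι → H) (L : Set ι) : Submodule ℂ H :=
  (Submodule.span ℂ (a '' L)).topologicalClosure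

/-- `inf` of the `N j`, `j ∉ L` -/
def NU (a : ι → H) (L : Set ι) : Submodule ℂ H where
  carrier := {f | ∀ j, j ∉ L → ∀ l, j ≤ l → inner ℂ (a l - a j) f = 0}
  add_mem' := by
    intro f g hf hg j hj l hl
    rw [inner_add_right, hf j hj l hl, hg j hj l hl, add_zero]
  zero_mem' := by intro j _ l _; simp
  smul_mem' := by
    intro c f hf j hj l hl
    rw [inner_smul_right, hf j hj l hl, mul_zero]

/-- elementary operators `z ↦ ⟪a r - a q, z⟫ a p` -/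
def R (a : ι → H) (p q r : ι) : H →L[ℂ] H := (innerSL ℂ (a r - a q)).smulRight (a p)

/-- strictly triangular operators of finite rank -/
def SS (a : ι → H) : Submodule ℂ (H →L[ℂ] H) :=
  Submodule.span ℂ {T | ∃ p q r, p ≤ q ∧ q ≤ r ∧ T = R a p q r}

/-- linear span of the `T^j f`, `j ≥ 1` -/
def orb (T : H →L[ℂ] H) (f : H) : Submodule ℂ H :=
  Submodule.span ℂ {y | ∃ j : ℕ, 1 ≤ j ∧ y = (T ^ j) f}

def Good (a : ι → H) (T : H →L[ℂ] H) (i l : ι) : Prop :=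
  ∀ f : H, inner ℂ (a l - a i) f ≠ 0 → a i ∈ orb T f

/-- lattice of closed invariant subspaces -/
abbrev LatT (T : H →L[ℂ] H) : Type := {M : Submodule ℂ H // IsClosed (M : Set H) ∧ ∀ x ∈ M, T x ∈ M}

end

/-! ### The general theorem -/

def S_N1 : Prop := ∀ (H ι : Type) [NormedAddCommGroup H] [InnerProductSpace ℂ H] [CompleteSpace H]
  [LinearOrder ι] [OrderBot ι] (a : ι → H), Chain a →
  ∀ T ∈ (SS a).topologicalClosure, ∀ i, ∀ f ∈ N a i, T f ∈ N a i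

/-- decomposition along a finite chain -/
def S_N2 : Prop := ∀ (H ι : Type) [NormedAddCommGroup H] [InnerProductSpace ℂ H] [CompleteSpace H]
  [LinearOrder ι] [OrderBot ι] (a : ι → H), Chain a → ∀ T ∈ SS a, ∀ i l : ι, i ≤ l →
  ∃ (n : ℕ) (k : ℕ → ι), (∀ x y, x < y → y ≤ n → k x < k y) ∧ k 0 = ⊥ ∧
    (∃ x, x ≤ n ∧ k x = i) ∧ (∃ y, y ≤ n ∧ k y = l) ∧
    (∀ j, j < n → T (a (k (j + 1)) - a (k j)) ∈
      Submodule.span ℂ {v | ∃ x, x < j ∧ v = a (k (x + 1)) - a (k x)}) ∧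
    (∀ f, (∀ j, j < n → inner ℂ (a (k (j + 1)) - a (k j)) f = 0) → T f = 0)

/-- finite dimensional lemma: after a small perturbation one Jordan block -/
def S_N3 : Prop := ∀ (H : Type) [NormedAddCommGroup H] [InnerProductSpace ℂ H] [CompleteSpace H]
  (n : ℕ) (v : ℕ → H) (T : H →L[ℂ] H), (∀ j, j < n → v j ≠ 0) →
  (∀ i j, i < j → j < n → inner ℂ (v i) (v j) = 0) →
  (∀ j, j < n → T (v j) ∈ Submodule.span ℂ {u | ∃ x, x < j ∧ u = v x}) →
  (∀ f, (∀ j, j < n → inner ℂ (v j) f = 0) → T f = 0) →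
  ∀ ε : ℝ, 0 < ε → ∃ η : ℂ, ∃ T' : H →L[ℂ] H,
    T' = T + η • ∑ j ∈ Finset.range (n - 1), (innerSL ℂ (v (j + 1))).smulRight (v j) ∧
    ‖T' - T‖ < ε ∧
    ∀ (f : H) (m : ℕ), m < n → inner ℂ (v m) f ≠ 0 → ∀ j, j < m → v j ∈ orb T' f

def S_N4 : Prop := ∀ (H ι : Type) [NormedAddCommGroup H] [InnerProductSpace ℂ H] [CompleteSpace H]
  [LinearOrder ι] [OrderBot ι] (a : ι → H), Chain a → ∀ T ∈ SS a, ∀ i l : ι, i ≤ l →
  ∀ ε : ℝ, 0 < ε → ∃ T' ∈ SS a, ‖T' - T‖ < ε ∧ Good a T' i l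

def S_N5 : Prop := ∀ (H ι : Type) [NormedAddCommGroup H] [InnerProductSpace ℂ H] [CompleteSpace H]
  [LinearOrder ι] [OrderBot ι] (a : ι → H), Chain a → ∀ T ∈ SS a, ∀ i l : ι, Good a T i l →
  ∀ δ ε : ℝ, 0 < δ → 0 < ε → ∃ r : ℝ, 0 < r ∧ ∀ T' : H →L[ℂ] H, ‖T' - T‖ < r →
  ∀ f : H, ‖f‖ ≤ 1 → δ ≤ ‖inner ℂ (a l - a i) f‖ → ∃ y ∈ orb T' f, ‖y - a i‖ < ε

def S_N6 : Prop := ∀ (H ι : Type) [NormedAddCommGroup H] [InnerProductSpace ℂ H] [CompleteSpace H]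
  [LinearOrder ι] [OrderBot ι] [Countable ι] (a : ι → H), Chain a →
  ∃ T ∈ (SS a).topologicalClosure, ∀ i l : ι, i ≤ l → ∀ f : H, inner ℂ (a l - a i) f ≠ 0 →
    a i ∈ (orb T f).topologicalClosure

def S_N7 : Prop := ∀ (H ι : Type) [NormedAddCommGroup H] [InnerProductSpace ℂ H] [CompleteSpace H]
  [LinearOrder ι] [OrderBot ι] [Countable ι] (a : ι → H), Chain a →
  ∃ T : H →L[ℂ] H, ∀ W : Submodule ℂ H, (IsClosed (W : Set H) ∧ ∀ x ∈ W, T x ∈ W) ↔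
    ∃ L : Set ι, IsLowerSet L ∧ (W = NL a L ∨ W = NU a L)

/-! ### Order types: compact subsets of the line -/

def S_O1 : Prop := ∀ F : Set ℝ, IsCompact F → F.Nonempty →
  ∃ (H : Type) (_ : NormedAddCommGroup H) (_ : InnerProductSpace ℂ H) (_ : CompleteSpace H)
    (_ : TopologicalSpace.SeparableSpace H) (a : F → H),
    (∀ s t : F, inner ℂ (a s) (a t) = (((min (s : ℝ) t - sInf F : ℝ)) : ℂ)) ∧
    (Submodule.span ℂ (Set.range a)).topologicalClosure = ⊤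

def S_O2 : Prop := ∀ F : Set ℝ, IsCompact F → F.Nonempty → ∃ D : Set ℝ, D ⊆ F ∧ D.Countable ∧
  sInf F ∈ D ∧ (∀ t ∈ F, ∀ ε : ℝ, 0 < ε → ∃ s ∈ D, |s - t| < ε) ∧
  (∀ s ∈ F, ∀ t ∈ F, s < t → F ∩ Set.Ioo s t = ∅ → s ∈ D ∧ t ∈ D)

def S_ORD : Prop := ∀ F : Set ℝ, IsCompact F → F.Nonempty →
  ∃ (H : Type) (_ : NormedAddCommGroup H) (_ : InnerProductSpace ℂ H) (_ : CompleteSpace H)
    (_ : TopologicalSpace.SeparableSpace H) (T : H →L[ℂ] H), Nonempty (LatT T ≃o F)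

/-! ### The nest on `ℓ²(ℚ)` -/

/-- index set: `⊥`, and `(r, false) < (r, true)` for rational `r` -/
abbrev J : Type := WithBot (ℚ ×ₗ Bool)

def S_Q1 : Prop := ∃ (cc : ℚ → ℝ) (a : J → lp (fun _ : ℚ => ℂ) 2), (∀ q, 0 < cc q) ∧ Chain a ∧
  (∀ (r : ℚ) (b : Bool) (q : ℚ), (a ((toLex (r, b) : ℚ ×ₗ Bool) : J)) q =
    if q < r ∨ (b = true ∧ q = r) then (cc q : ℂ) else 0)

def S_Q2 : Prop := ∃ T : lp (fun _ : ℚ => ℂ) 2 →L[ℂ] lp (fun _ : ℚ => ℂ) 2,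
      ∀ M : Submodule ℂ (lp (fun _ : ℚ => ℂ) 2),
        (IsClosed (M : Set (lp (fun _ : ℚ => ℂ) 2)) ∧ ∀ x ∈ M, T x ∈ M) ↔
          (M = ⊥ ∨ M = ⊤ ∨
            ∃ t : ℝ,
              (∀ f : lp (fun _ : ℚ => ℂ) 2, f ∈ M ↔ ∀ q : ℚ, t < (q : ℝ) → f q = 0) ∨
              (∀ f : lp (fun _ : ℚ => ℂ) 2, f ∈ M ↔ ∀ q : ℚ, t ≤ (q : ℝ) → f q = 0))

/-! ### Frozen statements and the `L + 1` problem -/

def S_Z1 : Prop :=
    ∃ (H : Type) (_ : NormedAddCommGroup H) (_ : InnerProductSpace ℂ H) (_ : CompleteSpace H)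
      (T : H →L[ℂ] H),
      Nonempty
        ({M : Submodule ℂ H // IsClosed (M : Set H) ∧ ∀ x ∈ M, T x ∈ M} ≃o
          ↥(Set.Icc (-1 : ℝ) 0 ∪ {1} ∪ Set.Icc (2 : ℝ) 3))

def S_Z2 : Prop :=
    ¬ (∃ S : Set ℝ, S.Nonempty ∧ S ⊆ Set.Icc (0 : ℝ) 1 ∧ IsClosed S ∧
      ∀ (H : Type) [NormedAddCommGroup H] [InnerProductSpace ℂ H] [CompleteSpace H]
        [TopologicalSpace.SeparableSpace H] (A : H →L[ℂ] H),
        IsEmpty (↥S ≃o {M : Submodule ℂ H // IsClosed (M : Set H) ∧ ∀ x ∈ M, A x ∈ M}))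

/-- `L` is (isomorphic to) the lattice of closed invariant subspaces of an operator on a nonzero
separable Hilbert space -/
def Attainable (L : Type) [PartialOrder L] : Prop :=
  ∃ (H : Type) (_ : NormedAddCommGroup H) (_ : InnerProductSpace ℂ H) (_ : CompleteSpace H)
    (_ : TopologicalSpace.SeparableSpace H) (_ : Nontrivial H) (T : H →L[ℂ] H),
    Nonempty (L ≃o LatT T)

/-- Douglas: an attainable chain is order isomorphic to a compact subset of the line -/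
def S_P1 : Prop := ∀ (L : Type) [LinearOrder L], Attainable L →
  ∃ F : Set ℝ, IsCompact F ∧ F.Nonempty ∧ Nonempty (L ≃o F)

def S_P2 : Prop := ∀ (L : Type) [LinearOrder L], Attainable L → Attainable (WithTop L)

end H94N
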