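import Pool.Agent.H94R6.Spec

set_option autoImplicit false

namespace H94N

theorem Z1 (hX : S_ORD) : S_Z1 := by
  unfold S_Z1
  have hF : IsCompact (Set.Icc (-1 : ℝ) 0 ∪ {1} ∪ Set.Icc (2 : ℝ) 3) :=
    (isCompact_Icc.union isCompact_singleton).union isCompact_Icc
  have hne : (Set.Icc (-1 : ℝ) 0 ∪ {1} ∪ Set.Icc (2 : ℝ) 3).Nonempty :=
    ⟨1, Or.inl (Or.inr rfl)⟩
  obtain ⟨H, i1, i2, i3, _, T, h⟩ := hX _ hF hne
  exact ⟨H, i1, i2, i3, T, h⟩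

end H94N
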