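import Pool.Agent.H94R6.Spec

set_option autoImplicit false

namespace H94N

theorem Z2 (hX : S_ORD) : S_Z2 := by
  unfold S_Z2
  rintro ⟨S, hne, hsub, hcl, hS⟩
  have hF : IsCompact S := isCompact_Icc.of_isClosed_subset hcl hsub
  obtain ⟨H, i1, i2, i3, i4, T, ⟨e⟩⟩ := hX S hF hne
  exact (hS H T).false e.symm

end H94N
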